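import Pool.Agent.Helper79K9.TF.Defs
import Pool.Agent.Helper118.Yud.G3

/-!
[BASE]: the maximal solutions, continuous dependence on the data
-/

set_option autoImplicit false

namespace Pool.Agent.Helper79K9.TF

open Set Filter Topology

namespace BaseL

/-- phase space -/
abbrev E := ℝ × ℝ × ℝ × ℝ

/-- clamp to `[-R, R]` -/
noncomputable def cl (R x : ℝ) : ℝ := max (-R) (min R x)

theorem cl_abs {R : ℝ} (hR : 0 ≤ R) (x : ℝ) : |cl R x| ≤ R := by
  unfold cl
  rw [abs_le]
  refine ⟨le_max_left _ _, max_le (by linarith) (min_le_left _ _)⟩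

theorem cl_eq {R x : ℝ} (h : |x| ≤ R) : cl R x = x := by
  unfold cl
  rw [abs_le] at h
  rw [min_eq_right h.2, max_eq_right h.1]

theorem cl_lip (R x y : ℝ) : |cl R x - cl R y| ≤ |x - y| := by
  unfold cl
  have h1 := abs_max_sub_max_le_max (-R) (min R x) (-R) (min R y)
  have h2 := abs_min_sub_min_le_max R x R y
  simp only [sub_self, abs_zero] at h1 h2
  rw [max_eq_right (abs_nonneg (min R x - min R y))] at h1
  rw [max_eq_right (abs_nonneg (x - y))] at h2
  exact h1.trans h2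

theorem cl_cont (R : ℝ) : Continuous (cl R) := by
  unfold cl
  fun_prop

/-- truncated field -/
noncomputable def F (d R X : ℝ) (t : ℝ) (y : E) : E :=
  (y.2.1, y.2.2.1, cl R y.2.2.2 / max y.1 d, y.1 - 1 - cl X t / 2 * y.2.1)

theorem max_lip (a b d : ℝ) : |max a d - max b d| ≤ |a - b| := by
  have h1 := abs_max_sub_max_le_max a d b d
  simp only [sub_self, abs_zero] at h1
  rwa [max_eq_left (abs_nonneg (a - b))] at h1

/-- Lipschitz constant -/
noncomputable def Lc (d R X : ℝ) : ℝ := 1 / d + R / d ^ 2 + 1 + X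

theorem F_lip {d R X : ℝ} (hd : 0 < d) (hR : 0 ≤ R) (hX : 0 ≤ X) (t : ℝ) :
    LipschitzWith (Real.toNNReal (Lc d R X)) (F d R X t) := by
  have hL : 0 ≤ Lc d R X := by unfold Lc; positivity
  apply LipschitzWith.of_dist_le_mul
  intro y z
  rw [Real.coe_toNNReal _ hL]
  have e1 : |y.1 - z.1| ≤ dist y z := by
    have := le_max_left (dist y.1 z.1) (dist y.2 z.2)
    rw [← Prod.dist_eq, Real.dist_eq] at this
    exact this
  have e2 : dist y.2 z.2 ≤ dist y z := by
    have := le_max_right (dist y.1 z.1) (dist y.2 z.2)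
    rwa [← Prod.dist_eq] at this
  have e3 : |y.2.1 - z.2.1| ≤ dist y z := by
    have := le_max_left (dist y.2.1 z.2.1) (dist y.2.2 z.2.2)
    rw [← Prod.dist_eq, Real.dist_eq] at this
    exact this.trans e2
  have e4 : dist y.2.2 z.2.2 ≤ dist y z := by
    have := le_max_right (dist y.2.1 z.2.1) (dist y.2.2 z.2.2)
    rw [← Prod.dist_eq] at this
    exact this.trans e2
  have e5 : |y.2.2.1 - z.2.2.1| ≤ dist y z := by
    have := le_max_left (dist y.2.2.1 z.2.2.1) (dist y.2.2.2 z.2.2.2)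
    rw [← Prod.dist_eq, Real.dist_eq] at this
    exact this.trans e4
  have e6 : |y.2.2.2 - z.2.2.2| ≤ dist y z := by
    have := le_max_right (dist y.2.2.1 z.2.2.1) (dist y.2.2.2 z.2.2.2)
    rw [← Prod.dist_eq, Real.dist_eq] at this
    exact this.trans e4
  set ε := dist y z with hε
  have hε0 : 0 ≤ ε := dist_nonneg
  have h1 : (1 : ℝ) ≤ Lc d R X := by
    unfold Lc
    have : 0 ≤ 1 / d := by positivity
    have : 0 ≤ R / d ^ 2 := by positivity
    linarith
  have hle : ε ≤ Lc d R X * ε := by nlinarith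
  unfold F
  rw [Prod.dist_eq, Prod.dist_eq, Prod.dist_eq]
  simp only
  refine max_le ?_ (max_le ?_ (max_le ?_ ?_))
  · rw [Real.dist_eq]
    linarith
  · rw [Real.dist_eq]
    linarith
  · rw [Real.dist_eq]
    have m1 : d ≤ max y.1 d := le_max_right _ _
    have m2 : d ≤ max z.1 d := le_max_right _ _
    have m3 : 0 < max y.1 d := by linarith
    have m4 : 0 < max z.1 d := by linarith
    have h2 : cl R y.2.2.2 / max y.1 d - cl R z.2.2.2 / max z.1 d =
        (cl R y.2.2.2 - cl R z.2.2.2) / max y.1 d +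
          cl R z.2.2.2 * (max z.1 d - max y.1 d) / (max y.1 d * max z.1 d) := by
      field_simp
      ring
    rw [h2]
    have h3 : |(cl R y.2.2.2 - cl R z.2.2.2) / max y.1 d| ≤ ε / d := by
      rw [abs_div, abs_of_pos m3]
      have := (cl_lip R y.2.2.2 z.2.2.2).trans e6
      gcongr
    have h4 : |cl R z.2.2.2 * (max z.1 d - max y.1 d) / (max y.1 d * max z.1 d)| ≤
        R * ε / (d * d) := by
      rw [abs_div, abs_mul, abs_of_pos (mul_pos m3 m4)]
      have h5 := cl_abs hR z.2.2.2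
      have h6 : |max z.1 d - max y.1 d| ≤ ε := by
        rw [abs_sub_comm]
        exact (max_lip _ _ _).trans e1
      gcongr
    calc _ ≤ ε / d + R * ε / (d * d) := (abs_add_le _ _).trans (add_le_add h3 h4)
      _ = (1 / d + R / d ^ 2) * ε := by
        field_simp
      _ ≤ Lc d R X * ε := by
        unfold Lc
        nlinarith
  · rw [Real.dist_eq]
    have h2 : y.1 - 1 - cl X t / 2 * y.2.1 - (z.1 - 1 - cl X t / 2 * z.2.1) =
        (y.1 - z.1) - cl X t / 2 * (y.2.1 - z.2.1) := by ring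
    rw [h2]
    have h3 : |cl X t / 2 * (y.2.1 - z.2.1)| ≤ X / 2 * ε := by
      rw [abs_mul, abs_div]
      have := cl_abs hX t
      norm_num
      gcongr
    calc _ ≤ ε + X / 2 * ε := (abs_sub _ _).trans (add_le_add e1 h3)
      _ ≤ Lc d R X * ε := by
        unfold Lc
        have : 0 ≤ 1 / d := by positivity
        have : 0 ≤ R / d ^ 2 := by positivity
        nlinarith [mul_nonneg hX hε0, mul_nonneg (add_nonneg (by positivity : 0 ≤ 1 / d)
          (by positivity : 0 ≤ R / d ^ 2)) hε0]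

theorem F_cont {d R X : ℝ} (hd : 0 < d) : Continuous (Function.uncurry (F d R X)) := by
  have h1 : Function.uncurry (F d R X) = fun z : ℝ × E =>
      (z.2.2.1, z.2.2.2.1, cl R z.2.2.2.2 / max z.2.1 d, z.2.1 - 1 - cl X z.1 / 2 * z.2.2.1) := by
    funext z
    rfl
  rw [h1]
  have h2 : Continuous fun z : ℝ × E => cl R z.2.2.2.2 / max z.2.1 d := by
    refine Continuous.div ((cl_cont R).comp (by fun_prop)) (by fun_prop) fun z => ?_
    have := le_max_right z.2.1 d
    intro h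
    linarith
  have h3 : Continuous fun z : ℝ × E => cl X z.1 := (cl_cont X).comp continuous_fst
  fun_prop

/-- solution of the truncated system -/
theorem exists_tr {d R X : ℝ} (hd : 0 < d) (hR : 0 ≤ R) (hX : 0 ≤ X) (A B : ℝ) :
    ∃ ξ : ℝ → E, ξ 0 = (A, 0, -B, 0) ∧ ∀ t, HasDerivAt ξ (F d R X t (ξ t)) t :=
  Pool.Agent.Helper118.Yud.global_ode (F d R X) _ (F_lip hd hR hX) (F_cont hd) (A, 0, -B, 0)

theorem Sol.hd4 {A B X : ℝ} {g p q n : ℝ → ℝ} (h : Sol A B X g p q n) {d R X₀ : ℝ}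
    (hX : X ≤ X₀) (hg : ∀ t ∈ Icc 0 X, d ≤ g t) (hn : ∀ t ∈ Icc 0 X, |n t| ≤ R) :
    ∀ t ∈ Icc 0 X, HasDerivWithinAt (fun t => ((g t, p t, q t, n t) : E))
      (F d R X₀ t (g t, p t, q t, n t)) (Icc 0 X) t := by
  intro t ht
  have h1 : F d R X₀ t (g t, p t, q t, n t) = (p t, q t, n t / g t, g t - 1 - t / 2 * p t) := by
    unfold F
    simp only
    rw [cl_eq (hn t ht), max_eq_left (hg t ht), cl_eq (x := t)]
    rw [abs_of_nonneg ht.1]
    exact ht.2.trans hX
  rw [h1]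
  exact (h.dg t ht).prodMk ((h.dp t ht).prodMk ((h.dq t ht).prodMk (h.dn t ht)))

theorem Sol.hd4r {A B X : ℝ} {g p q n : ℝ → ℝ} (h : Sol A B X g p q n) {d R X₀ : ℝ}
    (hX : X ≤ X₀) (hg : ∀ t ∈ Icc 0 X, d ≤ g t) (hn : ∀ t ∈ Icc 0 X, |n t| ≤ R) :
    ContinuousOn (fun t => ((g t, p t, q t, n t) : E)) (Icc 0 X) ∧
    ∀ t ∈ Ico 0 X, HasDerivWithinAt (fun t => ((g t, p t, q t, n t) : E))
      (F d R X₀ t (g t, p t, q t, n t)) (Ici t) t := by
  have h1 := Sol.hd4 h hX hg hn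
  refine ⟨fun t ht => (h1 t ht).continuousWithinAt, fun t ht => ?_⟩
  refine (h1 t (Ico_subset_Icc_self ht)).mono_of_mem_nhdsWithin ?_
  exact mem_of_superset (Icc_mem_nhdsGE ht.2) (Icc_subset_Icc_left ht.1)

/-- a true solution is a solution of the truncated system -/
theorem Sol.eq_tr {A B X : ℝ} {g p q n : ℝ → ℝ} (h : Sol A B X g p q n) {d R X₀ : ℝ}
    (hd : 0 < d) (hR : 0 ≤ R) (hX0 : 0 ≤ X₀) (hX : X ≤ X₀)
    (hg : ∀ t ∈ Icc 0 X, d ≤ g t) (hn : ∀ t ∈ Icc 0 X, |n t| ≤ R) {ξ : ℝ → E}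
    (h0 : ξ 0 = (A, 0, -B, 0)) (h1 : ∀ t, HasDerivAt ξ (F d R X₀ t (ξ t)) t) :
    ∀ t ∈ Icc 0 X, ξ t = (g t, p t, q t, n t) := by
  intro t ht
  have h2 := Sol.hd4r h hX hg hn
  have h3 := dist_le_of_trajectories_ODE (v := F d R X₀) (F_lip hd hR hX0) (f := ξ)
    (g := fun t => ((g t, p t, q t, n t) : E)) (a := 0) (b := X) (δ := 0)
    (fun t _ => (h1 t).continuousAt.continuousWithinAt) (fun t _ => (h1 t).hasDerivWithinAt)
    h2.1 h2.2 (by simp [h0, h.g0, h.p0, h.q0, h.n0]) t ht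
  rw [zero_mul] at h3
  exact dist_le_zero.1 h3

/-- a solution of the truncated system that stays inside is a true solution -/
theorem sol_of {A B X d R X₀ : ℝ} (hX0 : 0 ≤ X) (hX : X ≤ X₀) (hd : 0 < d) {ξ : ℝ → E}
    (h0 : ξ 0 = (A, 0, -B, 0)) (h1 : ∀ t, HasDerivAt ξ (F d R X₀ t (ξ t)) t)
    (hg : ∀ t ∈ Icc 0 X, d ≤ (ξ t).1) (hn : ∀ t ∈ Icc 0 X, |(ξ t).2.2.2| ≤ R) :
    Sol A B X (fun t => (ξ t).1) (fun t => (ξ t).2.1) (fun t => (ξ t).2.2.1)
      (fun t => (ξ t).2.2.2) := by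
  have h2 : ∀ t ∈ Icc 0 X, F d R X₀ t (ξ t) = ((ξ t).2.1, (ξ t).2.2.1,
      (ξ t).2.2.2 / (ξ t).1, (ξ t).1 - 1 - t / 2 * (ξ t).2.1) := by
    intro t ht
    unfold F
    rw [cl_eq (hn t ht), max_eq_left (hg t ht), cl_eq (x := t)]
    rw [abs_of_nonneg ht.1]
    exact ht.2.trans hX
  have h3 : ∀ t ∈ Icc 0 X, HasDerivAt ξ ((ξ t).2.1, (ξ t).2.2.1,
      (ξ t).2.2.2 / (ξ t).1, (ξ t).1 - 1 - t / 2 * (ξ t).2.1) t := by
    intro t ht
    rw [← h2 t ht]
    exact h1 t
  refine ⟨hX0, by simp [h0], by simp [h0], by simp [h0], by simp [h0],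
    fun t ht => hd.trans_le (hg t ht), fun t ht => ?_, fun t ht => ?_, fun t ht => ?_,
    fun t ht => ?_⟩
  · exact ((ContinuousLinearMap.fst ℝ ℝ (ℝ × ℝ × ℝ)).hasFDerivAt.comp_hasDerivAt t
      (h3 t ht)).hasDerivWithinAt
  · exact (((ContinuousLinearMap.fst ℝ ℝ (ℝ × ℝ)).comp
      (ContinuousLinearMap.snd ℝ ℝ (ℝ × ℝ × ℝ))).hasFDerivAt.comp_hasDerivAt t
      (h3 t ht)).hasDerivWithinAt
  · exact (((ContinuousLinearMap.fst ℝ ℝ ℝ).comp ((ContinuousLinearMap.snd ℝ ℝ (ℝ × ℝ)).comp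
      (ContinuousLinearMap.snd ℝ ℝ (ℝ × ℝ × ℝ)))).hasFDerivAt.comp_hasDerivAt t
      (h3 t ht)).hasDerivWithinAt
  · exact (((ContinuousLinearMap.snd ℝ ℝ ℝ).comp ((ContinuousLinearMap.snd ℝ ℝ (ℝ × ℝ)).comp
      (ContinuousLinearMap.snd ℝ ℝ (ℝ × ℝ × ℝ)))).hasFDerivAt.comp_hasDerivAt t
      (h3 t ht)).hasDerivWithinAt

/-- bounds of a solution -/
theorem Sol.bounds {A B X : ℝ} {g p q n : ℝ → ℝ} (h : Sol A B X g p q n) :
    ∃ d R : ℝ, 0 < d ∧ 0 < R ∧ (∀ t ∈ Icc 0 X, 2 * d ≤ g t) ∧ ∀ t ∈ Icc 0 X, |n t| + 1 ≤ R := by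
  have hne : (Icc (0 : ℝ) X).Nonempty := ⟨0, ⟨le_rfl, h.X0⟩⟩
  have hg : ContinuousOn g (Icc 0 X) := fun t ht => (h.dg t ht).continuousWithinAt
  have hn : ContinuousOn n (Icc 0 X) := fun t ht => (h.dn t ht).continuousWithinAt
  obtain ⟨t₀, ht₀, hm⟩ := isCompact_Icc.exists_isMinOn hne hg
  obtain ⟨C, hC⟩ := isCompact_Icc.exists_bound_of_continuousOn hn
  refine ⟨g t₀ / 2, |C| + 1, by linarith [h.pos t₀ ht₀], by positivity, fun t ht => ?_,
    fun t ht => ?_⟩
  · have := hm ht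
    change g t₀ ≤ g t at this
    linarith
  · have := hC t ht
    rw [Real.norm_eq_abs] at this
    linarith [le_abs_self C]

/-- uniqueness -/
theorem Sol.unique {A B X : ℝ} {g p q n g' p' q' n' : ℝ → ℝ} (h : Sol A B X g p q n)
    (h' : Sol A B X g' p' q' n') :
    ∀ t ∈ Icc 0 X, ((g t, p t, q t, n t) : E) = (g' t, p' t, q' t, n' t) := by
  obtain ⟨d, R, hd, hR, h1, h2⟩ := Sol.bounds h
  obtain ⟨d', R', hd', hR', h1', h2'⟩ := Sol.bounds h'
  have hm : 0 < min d d' := lt_min hd hd'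
  have hM : 0 ≤ max R R' := hR.le.trans (le_max_left _ _)
  obtain ⟨ξ, x0, x1⟩ := exists_tr (d := min d d') (R := max R R') (X := X) hm hM h.X0 A B
  intro t ht
  have a1 := Sol.eq_tr h hm hM h.X0 le_rfl (fun t ht => by
    have := h1 t ht
    have := min_le_left d d'
    linarith) (fun t ht => by
    have := h2 t ht
    have := le_max_left R R'
    linarith) x0 x1 t ht
  have a2 := Sol.eq_tr h' hm hM h.X0 le_rfl (fun t ht => by
    have := h1' t ht
    have := min_le_right d d'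
    linarith) (fun t ht => by
    have := h2' t ht
    have := le_max_right R R'
    linarith) x0 x1 t ht
  exact a1.symm.trans a2

theorem Sol.restrict {A B X Y : ℝ} {g p q n : ℝ → ℝ} (h : Sol A B X g p q n) (h0 : 0 ≤ Y)
    (hY : Y ≤ X) : Sol A B Y g p q n := by
  have hs : Icc 0 Y ⊆ Icc 0 X := Icc_subset_Icc_right hY
  exact ⟨h0, h.g0, h.p0, h.q0, h.n0, fun t ht => h.pos t (hs ht), fun t ht => (h.dg t (hs ht)).mono hs,
    fun t ht => (h.dp t (hs ht)).mono hs, fun t ht => (h.dq t (hs ht)).mono hs,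
    fun t ht => (h.dn t (hs ht)).mono hs⟩

theorem Sol.congr {A B X : ℝ} {g p q n g' p' q' n' : ℝ → ℝ} (h : Sol A B X g p q n)
    (he : ∀ t ∈ Icc 0 X, ((g t, p t, q t, n t) : E) = (g' t, p' t, q' t, n' t)) :
    Sol A B X g' p' q' n' := by
  have e1 : ∀ t ∈ Icc 0 X, g' t = g t := fun t ht => (congrArg Prod.fst (he t ht)).symm
  have e2 : ∀ t ∈ Icc 0 X, p' t = p t := fun t ht =>
    (congrArg (fun z : E => z.2.1) (he t ht)).symm
  have e3 : ∀ t ∈ Icc 0 X, q' t = q t := fun t ht =>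
    (congrArg (fun z : E => z.2.2.1) (he t ht)).symm
  have e4 : ∀ t ∈ Icc 0 X, n' t = n t := fun t ht =>
    (congrArg (fun z : E => z.2.2.2) (he t ht)).symm
  have h0 : (0 : ℝ) ∈ Icc 0 X := ⟨le_rfl, h.X0⟩
  refine ⟨h.X0, by rw [e1 0 h0, h.g0], by rw [e2 0 h0, h.p0], by rw [e3 0 h0, h.q0],
    by rw [e4 0 h0, h.n0], fun t ht => by rw [e1 t ht]; exact h.pos t ht, fun t ht => ?_,
    fun t ht => ?_, fun t ht => ?_, fun t ht => ?_⟩
  · rw [e2 t ht]
    exact (h.dg t ht).congr e1 (e1 t ht)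
  · rw [e3 t ht]
    exact (h.dp t ht).congr e2 (e2 t ht)
  · rw [e4 t ht, e1 t ht]
    exact (h.dq t ht).congr e3 (e3 t ht)
  · rw [e1 t ht, e2 t ht]
    exact (h.dn t ht).congr e4 (e4 t ht)

/-- existence on `[0, X]` -/
def D (A B X : ℝ) : Prop := ∃ y : ℝ → E, Sol A B X (fun t => (y t).1) (fun t => (y t).2.1)
  (fun t => (y t).2.2.1) (fun t => (y t).2.2.2)

theorem D_of {A B X : ℝ} {g p q n : ℝ → ℝ} (h : Sol A B X g p q n) : D A B X :=
  ⟨fun t => (g t, p t, q t, n t), h⟩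

open Classical in
/-- the chosen solution -/
noncomputable def Y (A B t : ℝ) : E := if h : D A B t then h.choose t else 0

theorem Y_eq {A B X : ℝ} {g p q n : ℝ → ℝ} (h : Sol A B X g p q n) :
    ∀ t ∈ Icc 0 X, (g t, p t, q t, n t) = Y A B t := by
  intro t ht
  have h1 := Sol.restrict h ht.1 ht.2
  have h2 : D A B t := D_of h1
  unfold Y
  rw [dif_pos h2]
  exact Sol.unique h1 h2.choose_spec t ⟨ht.1, le_rfl⟩

end BaseL

open BaseL in
theorem base : S_BASE := by
  refine ⟨fun A B t => (Y A B t).1, fun A B t => (Y A B t).2.1, fun A B t => (Y A B t).2.2.1,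
    fun A B t => (Y A B t).2.2.2, D, ?_⟩
  refine ⟨?_, ?_, ?_, ?_, ?_, ?_⟩
  · intro A B hA
    refine D_of (g := fun _ => A) (p := fun _ => 0) (q := fun _ => -B) (n := fun _ => 0)
      ⟨le_rfl, rfl, rfl, rfl, rfl, fun _ _ => hA, ?_, ?_, ?_, ?_⟩
    all_goals
      intro t ht
      rw [Icc_self, mem_singleton_iff] at ht
      rw [ht, Icc_self]
      exact HasFDerivWithinAt.of_subsingleton subsingleton_singleton
  · rintro A B X Y₀ ⟨y, h⟩ h0 h1
    exact ⟨y, Sol.restrict h h0 h1⟩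
  · rintro A B X ⟨y, h⟩
    exact Sol.congr h (Y_eq h)
  · rintro A B X ⟨y, h⟩
    obtain ⟨d, R, hd, hR, h1, h2⟩ := Sol.bounds h
    have hX1 : 0 ≤ X + 1 := by linarith [h.X0]
    obtain ⟨ξ, x0, x1⟩ := exists_tr (d := d) (R := R) (X := X + 1) hd hR.le hX1 A B
    have a1 := Sol.eq_tr h hd hR.le hX1 (by linarith) (fun t ht => by
      have := h1 t ht
      linarith) (fun t ht => by
      have := h2 t ht
      linarith) x0 x1
    have hc : ContinuousAt ξ X := (x1 X).continuousAt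
    have hX : X ∈ Icc 0 X := ⟨h.X0, le_rfl⟩
    have c1 : ∀ᶠ t in 𝓝 X, d < (ξ t).1 := by
      refine (continuous_fst.continuousAt.comp hc).eventually_const_lt ?_
      simp only [Function.comp]
      rw [a1 X hX]
      have := h1 X hX
      simp only
      linarith
    have c2 : ∀ᶠ t in 𝓝 X, |(ξ t).2.2.2| < R := by
      have c3 : Continuous fun z : E => |z.2.2.2| := by fun_prop
      refine (c3.continuousAt.comp hc).eventually_lt_const ?_
      simp only [Function.comp]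
      rw [a1 X hX]
      have := h2 X hX
      simp only
      linarith
    obtain ⟨η, hη, hb⟩ := Metric.eventually_nhds_iff.1 (c1.and c2)
    refine ⟨X + min (η / 2) 1, by have : 0 < min (η / 2) 1 := by positivity
                                  linarith, ?_⟩
    have hm1 : min (η / 2) 1 ≤ η / 2 := min_le_left _ _
    have hm2 : min (η / 2) 1 ≤ 1 := min_le_right _ _
    have hm0 : 0 < min (η / 2) 1 := by positivity
    have hall : ∀ t ∈ Icc 0 (X + min (η / 2) 1), d ≤ (ξ t).1 ∧ |(ξ t).2.2.2| ≤ R := by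
      intro t ht
      rcases le_or_gt t X with htX | htX
      · have := a1 t ⟨ht.1, htX⟩
        rw [this]
        have := h1 t ⟨ht.1, htX⟩
        have := h2 t ⟨ht.1, htX⟩
        constructor
        · simp only
          linarith
        · simp only
          linarith
      · have := hb (y := t) (by
          rw [Real.dist_eq, abs_of_pos (by linarith)]
          linarith [ht.2])
        exact ⟨this.1.le, this.2.le⟩
    exact D_of (sol_of (by linarith [h.X0]) (by linarith) hd x0 x1 (fun t ht => (hall t ht).1)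
      fun t ht => (hall t ht).2)
  · rintro A B X ⟨y, h⟩ ε hε
    obtain ⟨d, R, hd, hR, h1, h2⟩ := Sol.bounds h
    obtain ⟨ξ, x0, x1⟩ := exists_tr (d := d) (R := R) (X := X) hd hR.le h.X0 A B
    have a1 := Sol.eq_tr h hd hR.le h.X0 le_rfl (fun t ht => by
      have := h1 t ht
      linarith) (fun t ht => by
      have := h2 t ht
      linarith) x0 x1
    set K : ℝ := Real.exp ((Real.toNNReal (Lc d R X) : ℝ) * X) with hK
    have hK0 : 0 < K := Real.exp_pos _
    set m : ℝ := min (min d 1) ε with hm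
    have hm0 : 0 < m := by positivity
    have hmd : m ≤ d := (min_le_left _ _).trans (min_le_left _ _)
    have hm1 : m ≤ 1 := (min_le_left _ _).trans (min_le_right _ _)
    have hme : m ≤ ε := min_le_right _ _
    refine ⟨m / (2 * K), by positivity, fun A' B' hA hB => ?_⟩
    obtain ⟨ζ, z0, z1⟩ := exists_tr (d := d) (R := R) (X := X) hd hR.le h.X0 A' B'
    have hdist : ∀ t ∈ Icc 0 X, dist (ζ t) (ξ t) < m := by
      intro t ht
      have h3 := dist_le_of_trajectories_ODE (v := F d R X) (F_lip hd hR.le h.X0) (f := ζ)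
        (g := ξ) (a := 0) (b := X) (δ := m / (2 * K))
        (fun t _ => (z1 t).continuousAt.continuousWithinAt) (fun t _ => (z1 t).hasDerivWithinAt)
        (fun t _ => (x1 t).continuousAt.continuousWithinAt) (fun t _ => (x1 t).hasDerivWithinAt)
        (by
          rw [z0, x0, Prod.dist_eq, Prod.dist_eq, Prod.dist_eq]
          simp only [dist_self, Real.dist_eq]
          refine max_le hA.le (max_le (by positivity) (max_le ?_ (by positivity)))
          rw [← abs_neg]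
          have : -(-B' - -B) = B' - B := by ring
          rw [this]
          exact hB.le) t ht
      have h4 : Real.exp ((Real.toNNReal (Lc d R X) : ℝ) * (t - 0)) ≤ K := by
        rw [hK]
        apply Real.exp_le_exp.2
        apply mul_le_mul_of_nonneg_left _ (NNReal.coe_nonneg _)
        linarith [ht.2]
      calc dist (ζ t) (ξ t) ≤ m / (2 * K) * Real.exp ((Real.toNNReal (Lc d R X) : ℝ) * (t - 0)) := h3
        _ ≤ m / (2 * K) * K := by gcongr
        _ = m / 2 := by field_simp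
        _ < m := by linarith
    have hc : ∀ t ∈ Icc 0 X, |(ζ t).1 - (y t).1| < m ∧ |(ζ t).2.1 - (y t).2.1| < m ∧
        |(ζ t).2.2.1 - (y t).2.2.1| < m ∧ |(ζ t).2.2.2 - (y t).2.2.2| < m := by
      intro t ht
      have h3 := hdist t ht
      rw [a1 t ht, Prod.dist_eq, Prod.dist_eq, Prod.dist_eq] at h3
      simp only [Real.dist_eq, max_lt_iff] at h3
      exact h3
    have hs : Sol A' B' X (fun t => (ζ t).1) (fun t => (ζ t).2.1) (fun t => (ζ t).2.2.1)
        (fun t => (ζ t).2.2.2) := by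
      refine sol_of h.X0 le_rfl hd z0 z1 (fun t ht => ?_) fun t ht => ?_
      · have := (abs_lt.1 (hc t ht).1).1
        have := h1 t ht
        linarith
      · have h3 := (hc t ht).2.2.2
        have h4 := h2 t ht
        have h5 := abs_sub_abs_le_abs_sub (ζ t).2.2.2 (y t).2.2.2
        linarith
    refine ⟨⟨ζ, hs⟩, fun t ht => ?_⟩
    rw [← Y_eq hs t ht, ← Y_eq h t ht]
    have := hc t ht
    exact ⟨this.1.trans_le hme, this.2.1.trans_le hme, this.2.2.1.trans_le hme,
      this.2.2.2.trans_le hme⟩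
  · intro A B T δ R hT hD hδ hb
    have hR : 0 ≤ R := (abs_nonneg _).trans (hb 0 le_rfl hT).2
    obtain ⟨ξ, x0, x1⟩ := exists_tr (d := δ) (R := R) (X := T) hδ hR hT.le A B
    have a1 : ∀ t, 0 ≤ t → t < T → ξ t = Y A B t := by
      intro t h0 ht
      obtain ⟨y, h⟩ := hD t h0 ht
      have e1 := Y_eq h
      have e2 := Sol.eq_tr h hδ hR hT.le ht.le (fun s hs => by
        have := (hb s hs.1 (hs.2.trans_lt ht)).1
        rw [← e1 s hs] at this
        exact this) (fun s hs => by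
        have := (hb s hs.1 (hs.2.trans_lt ht)).2
        rw [← e1 s hs] at this
        exact this) x0 x1
      rw [e2 t ⟨h0, le_rfl⟩, e1 t ⟨h0, le_rfl⟩]
    have hcl : ∀ t ∈ Icc 0 T, δ ≤ (ξ t).1 ∧ |(ξ t).2.2.2| ≤ R := by
      have hξ : Continuous ξ := continuous_iff_continuousAt.2 fun t => (x1 t).continuousAt
      have hcl1 : IsClosed {t | δ ≤ (ξ t).1 ∧ |(ξ t).2.2.2| ≤ R} := by
        apply IsClosed.inter
        · exact isClosed_le continuous_const (continuous_fst.comp hξ)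
        · exact isClosed_le (continuous_abs.comp (continuous_snd.comp (continuous_snd.comp
            (continuous_snd.comp hξ)))) continuous_const
      have hsub : Ico 0 T ⊆ {t | δ ≤ (ξ t).1 ∧ |(ξ t).2.2.2| ≤ R} := by
        intro t ht
        change δ ≤ (ξ t).1 ∧ |(ξ t).2.2.2| ≤ R
        rw [a1 t ht.1 ht.2]
        exact hb t ht.1 ht.2
      have := closure_minimal hsub hcl1
      rw [closure_Ico hT.ne] at this
      exact fun t ht => this ht
    exact D_of (sol_of hT.le le_rfl hδ x0 x1 (fun t ht => (hcl t ht).1) fun t ht => (hcl t ht).2)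

end Pool.Agent.Helper79K9.TF
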