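import Pool.Agent.Helper79K9.TF.Cross

/-!
[BOT], [OPEN]
-/

set_option autoImplicit false

namespace Pool.Agent.Helper79K9.TF

open Set Filter Topology

theorem bot : S_BOT := by
  intro G P Q N D hF A hA
  obtain ⟨X, hX, hD⟩ := hF.ext A 0 0 (hF.dom0 A 0 (by linarith))
  have h := hF.sol A 0 X hD
  obtain ⟨δ, hδ, hδX, -, h2⟩ := CrossL.n_pos_near h hA hX
  have hq : ∀ t, 0 < t → t ≤ δ → 0 < Q A 0 t := by
    intro t h0 h1
    obtain ⟨c, hc1, hc2, hc⟩ := CrossL.mvt h.dq le_rfl h0 (h1.trans hδX)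
    rw [h.q0] at hc
    have h3 := h2 c hc1 (hc2.le.trans h1)
    have h4 := h.pos c ⟨hc1.le, (hc2.le.trans h1).trans hδX⟩
    have h5 : 0 < N A 0 c / G A 0 c * (t - 0) := by
      have : 0 < N A 0 c / G A 0 c := div_pos h3 h4
      nlinarith
    linarith
  refine ⟨δ, hF.dle A 0 X δ hD hδ.le hδX, ?_⟩
  show 0 < P A 0 δ
  obtain ⟨c, hc1, hc2, hc⟩ := CrossL.mvt h.dp le_rfl hδ hδX
  rw [h.p0] at hc
  have h5 := hq c hc1 hc2.le
  nlinarith

theorem opn : S_OPEN := by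
  intro G P Q N D hF
  constructor
  · rw [Metric.isOpen_iff]
    rintro ⟨A, B⟩ ⟨X, hD, hP⟩
    simp only at hD hP
    obtain ⟨η, hη, hc⟩ := hF.cont A B X hD (P A B X) hP
    refine ⟨η, hη, ?_⟩
    rintro ⟨A', B'⟩ ha
    rw [Metric.mem_ball, Prod.dist_eq, Real.dist_eq, Real.dist_eq, max_lt_iff] at ha
    obtain ⟨h1, h2⟩ := hc A' B' ha.1 ha.2
    have h3 := (h2 X ⟨(hF.sol A B X hD).X0, le_rfl⟩).2.1
    refine ⟨X, h1, ?_⟩
    show 0 < P A' B' X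
    have := (abs_lt.1 h3).1
    linarith
  · rw [Metric.isOpen_iff]
    rintro ⟨A, B⟩ ⟨X, hD, hP⟩
    simp only at hD hP
    obtain ⟨η, hη, hc⟩ := hF.cont A B X hD (-N A B X) (by linarith)
    refine ⟨η, hη, ?_⟩
    rintro ⟨A', B'⟩ ha
    rw [Metric.mem_ball, Prod.dist_eq, Real.dist_eq, Real.dist_eq, max_lt_iff] at ha
    obtain ⟨h1, h2⟩ := hc A' B' ha.1 ha.2
    have h3 := (h2 X ⟨(hF.sol A B X hD).X0, le_rfl⟩).2.2.2
    refine ⟨X, h1, ?_⟩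
    show N A' B' X < 0
    have := (abs_lt.1 h3).2
    linarith

end Pool.Agent.Helper79K9.TF
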