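import Pool.Agent.Helper79K9.TF.Defs

/-!
# Zero contact angle profiles: the criterion
-/

set_option autoImplicit false

namespace Pool.Agent.Helper79K9.TF

open Set Filter Topology

namespace CritL

theorem anti {f f' : ℝ → ℝ} {a b : ℝ} (hab : a ≤ b)
    (hf : ∀ t ∈ Icc a b, HasDerivWithinAt f (f' t) (Icc a b) t)
    (h : ∀ t ∈ Icc a b, f' t ≤ 0) : f b ≤ f a := by
  have hd : ∀ t ∈ interior (Icc a b), HasDerivAt f (f' t) t := by
    intro t ht
    rw [interior_Icc] at ht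
    exact (hf t (Ioo_subset_Icc_self ht)).hasDerivAt (Icc_mem_nhds ht.1 ht.2)
  refine antitoneOn_of_deriv_nonpos (convex_Icc a b)
    (fun t ht => (hf t ht).continuousWithinAt)
    (fun t ht => (hd t ht).differentiableAt.differentiableWithinAt) (fun t ht => ?_)
    ⟨le_rfl, hab⟩ ⟨hab, le_rfl⟩ hab
  rw [(hd t ht).deriv]
  exact h t (interior_subset ht)

theorem incr_le {f f' : ℝ → ℝ} {a b c : ℝ} (hab : a ≤ b)
    (hf : ∀ t ∈ Icc a b, HasDerivWithinAt f (f' t) (Icc a b) t)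
    (h : ∀ t ∈ Icc a b, f' t ≤ c) : f b - f a ≤ c * (b - a) := by
  have h1 := anti (f := fun t => f t - c * t) (f' := fun t => f' t - c * 1) hab
    (fun t ht => (hf t ht).sub ((hasDerivAt_id' t).hasDerivWithinAt.const_mul c))
    (fun t ht => by linarith [h t ht])
  linarith

/-- bootstrap -/
theorem boot {f : ℝ → ℝ} {a b κ : ℝ} (hf : ContinuousOn f (Icc a b)) (h0 : f a < κ)
    (h : ∀ t ∈ Icc a b, (∀ x ∈ Icc a t, f x ≤ κ) → f t < κ) : ∀ t ∈ Icc a b, f t < κ := by
  by_contra hcon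
  push Not at hcon
  obtain ⟨t, ht, hft⟩ := hcon
  have hcl : IsClosed (Icc a b ∩ f ⁻¹' Ici κ) := hf.preimage_isClosed_of_isClosed isClosed_Icc
    isClosed_Ici
  have hcp : IsCompact (Icc a b ∩ f ⁻¹' Ici κ) :=
    isCompact_Icc.of_isClosed_subset hcl inter_subset_left
  obtain ⟨t₀, ht₀, hmin⟩ := hcp.exists_isLeast ⟨t, ht, hft⟩
  have hlt : ∀ x ∈ Icc a b, x < t₀ → f x < κ := by
    intro x hx hxt
    by_contra hx'
    push Not at hx'
    exact absurd (hmin ⟨hx, hx'⟩) (not_le.2 hxt)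
  have hle : f t₀ ≤ κ := by
    by_contra hx'
    push Not at hx'
    have hsub : Icc a t₀ ⊆ Icc a b := Icc_subset_Icc_right ht₀.1.2
    have := intermediate_value_Icc ht₀.1.1 (hf.mono hsub)
    obtain ⟨x, hx, hfx⟩ := this ⟨h0.le, hx'.le⟩
    have hne : x ≠ t₀ := by
      rintro rfl
      exact absurd hfx (ne_of_gt hx')
    have := hlt x (hsub hx) (lt_of_le_of_ne hx.2 hne)
    rw [hfx] at this
    exact lt_irrefl _ this
  have hall : ∀ x ∈ Icc a t₀, f x ≤ κ := by
    intro x hx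
    rcases hx.2.lt_or_eq with h1 | h1
    · exact (hlt x ⟨hx.1, hx.2.trans ht₀.1.2⟩ h1).le
    · rw [h1]; exact hle
  exact absurd (h t₀ ht₀.1 hall) (not_lt.2 ht₀.2)

variable {A B X : ℝ} {g p q n : ℝ → ℝ}

/-- as long as `p ≤ 0`: `g ≤ A` -/
theorem g_le (h : Sol A B X g p q n) {t : ℝ} (ht : t ∈ Icc 0 X) (hp : ∀ x ∈ Icc 0 t, p x ≤ 0) :
    g t ≤ A := by
  have h1 := anti (f := g) (f' := p) ht.1
    (fun x hx => (h.dg x ⟨hx.1, hx.2.trans ht.2⟩).mono (Icc_subset_Icc_right ht.2)) hp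
  rw [h.g0] at h1
  exact h1

/-- as long as `p ≤ 0`: `n t ≤ 3 A t / 2` -/
theorem n_le (h : Sol A B X g p q n) {t : ℝ} (ht : t ∈ Icc 0 X) (hp : ∀ x ∈ Icc 0 t, p x ≤ 0) :
    n t ≤ 3 / 2 * A * t := by
  have hsub : Icc 0 t ⊆ Icc 0 X := Icc_subset_Icc_right ht.2
  have h1 := incr_le (f := fun x => n x + x / 2 * g x)
    (f' := fun x => (g x - 1 - x / 2 * p x) + (1 / 2 * g x + x / 2 * p x))
    (c := 3 / 2 * A) ht.1 (fun x hx => by
      have d1 := (h.dn x (hsub hx)).mono hsub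
      have d2 := (h.dg x (hsub hx)).mono hsub
      have d3 : HasDerivWithinAt (fun x : ℝ => x / 2) (1 / 2) (Icc 0 t) x :=
        ((hasDerivAt_id' x).div_const 2).hasDerivWithinAt
      exact d1.add (d3.mul d2))
    (fun x hx => by
      have := g_le h (hsub hx) (fun y hy => hp y ⟨hy.1, hy.2.trans hx.2⟩)
      linarith)
  simp only [h.n0, zero_div, zero_mul, add_zero, sub_zero] at h1
  have h2 := h.pos t ht
  have h3 : 0 ≤ t / 2 * g t := mul_nonneg (by linarith [ht.1]) h2.le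
  linarith

end CritL

open CritL in
theorem crit : S_CRIT := by
  intro A B X s γ p₀ q₀ g p q n h hA hs hsX hps hγ hp₀ hpsp hq₀ hqs hcrit
  have hsI : s ∈ Icc 0 X := ⟨hs, hsX⟩
  have hγ0 : 0 < γ := by rw [← hγ]; exact h.pos s hsI
  have hcont : ContinuousOn p (Icc s X) := fun t ht =>
    ((h.dp t ⟨hs.trans ht.1, ht.2⟩).mono (Icc_subset_Icc_left hs)).continuousWithinAt
  refine boot hcont (by linarith) fun t ht hpt => ?_
  have htX : t ∈ Icc 0 X := ⟨hs.trans ht.1, ht.2⟩
  have hsub : Icc s t ⊆ Icc 0 X := Icc_subset_Icc hs ht.2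
  have hp0 : ∀ x ∈ Icc 0 t, p x ≤ 0 := by
    intro x hx
    rcases le_total x s with h1 | h1
    · exact hps x ⟨hx.1, h1⟩
    · linarith [hpt x ⟨h1, hx.2⟩]
  -- the length
  have hlen : t - s ≤ 2 * γ / p₀ := by
    have h1 := incr_le (f := g) (f' := p) (c := -(p₀ / 2)) ht.1
      (fun x hx => (h.dg x (hsub hx)).mono hsub) (fun x hx => hpt x hx)
    rw [hγ] at h1
    have h2 := h.pos t htX
    rw [le_div_iff₀ hp₀]
    nlinarith
  set M : ℝ := 3 / 2 * A * (s + 2 * γ / p₀) with hM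
  have hM0 : 0 ≤ M := by positivity
  have hn : ∀ x ∈ Icc s t, n x ≤ M := by
    intro x hx
    have h1 := n_le h (hsub hx) (fun y hy => hp0 y ⟨hy.1, hy.2.trans hx.2⟩)
    have h2 : 3 / 2 * A * x ≤ M := by
      rw [hM]
      refine mul_le_mul_of_nonneg_left ?_ (by positivity)
      linarith [hx.2]
    exact h1.trans h2
  have hgγ : ∀ x ∈ Icc s t, g x ≤ γ := by
    intro x hx
    have hsub' : Icc s x ⊆ Icc 0 X := (Icc_subset_Icc_right hx.2).trans hsub
    have h1 := anti (f := g) (f' := p) hx.1 (fun y hy => (h.dg y (hsub' hy)).mono hsub')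
      (fun y hy => by linarith [hpt y ⟨hy.1, hy.2.trans hx.2⟩])
    rw [hγ] at h1
    exact h1
  have hgp : ∀ x ∈ Icc s t, 0 < g x := fun x hx => h.pos x (hsub hx)
  -- the bound for `q`
  have hq : ∀ x ∈ Icc s t, q x ≤ q₀ + 2 * M / p₀ * (Real.log γ - Real.log (g x)) := by
    intro x hx
    have hsub' : Icc s x ⊆ Icc 0 X := (Icc_subset_Icc_right hx.2).trans hsub
    have h1 := anti (f := fun y => q y + 2 * M / p₀ * Real.log (g y))
      (f' := fun y => n y / g y + 2 * M / p₀ * (p y / g y)) hx.1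
      (fun y hy => by
        have hy' : y ∈ Icc s t := ⟨hy.1, hy.2.trans hx.2⟩
        exact ((h.dq y (hsub' hy)).mono hsub').add
          ((((h.dg y (hsub' hy)).mono hsub').log (hgp y hy').ne').const_mul _))
      (fun y hy => by
        have hy' : y ∈ Icc s t := ⟨hy.1, hy.2.trans hx.2⟩
        have e1 : n y / g y + 2 * M / p₀ * (p y / g y) = (n y + 2 * M / p₀ * p y) / g y := by
          ring
        rw [e1]
        refine div_nonpos_of_nonpos_of_nonneg ?_ (hgp y hy').le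
        have h2 := hn y hy'
        have h3 : 2 * M / p₀ * p y ≤ 2 * M / p₀ * -(p₀ / 2) :=
          mul_le_mul_of_nonneg_left (hpt y hy') (by positivity)
        have h4 : 2 * M / p₀ * -(p₀ / 2) = -M := by field_simp
        linarith)
    simp only [hγ] at h1
    have e2 : 2 * M / p₀ * (Real.log γ - Real.log (g x)) =
      2 * M / p₀ * Real.log γ - 2 * M / p₀ * Real.log (g x) := by ring
    rw [e2]
    linarith
  have hlog : ∀ x ∈ Icc s t, 0 ≤ Real.log γ - Real.log (g x) := fun x hx =>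
    sub_nonneg.2 (Real.log_le_log (hgp x hx) (hgγ x hx))
  -- the bound for `p`
  have hW := anti (f := fun y => p y + 2 / p₀ * (q₀ * g y + 2 * M / p₀ *
      (g y * (Real.log γ - Real.log (g y)) + g y)))
    (f' := fun y => q y + 2 / p₀ * (q₀ * p y + 2 * M / p₀ *
      ((p y * (Real.log γ - Real.log (g y)) + g y * (0 - p y / g y)) + p y))) ht.1
    (fun y hy => by
      have dg := (h.dg y (hsub hy)).mono hsub
      have dp := (h.dp y (hsub hy)).mono hsub
      exact dp.add (((dg.const_mul q₀).add (((dg.mul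
        ((hasDerivWithinAt_const y (Icc s t) (Real.log γ)).sub
          (dg.log (hgp y hy).ne'))).add dg).const_mul _)).const_mul _))
    (fun y hy => by
      have hgy := (hgp y hy).ne'
      have e1 : q y + 2 / p₀ * (q₀ * p y + 2 * M / p₀ *
          ((p y * (Real.log γ - Real.log (g y)) + g y * (0 - p y / g y)) + p y)) =
          q y + 2 / p₀ * p y * (q₀ + 2 * M / p₀ * (Real.log γ - Real.log (g y))) := by
        field_simp
        ring
      rw [e1]
      have h1 := hq y hy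
      have h2 : 0 ≤ q₀ + 2 * M / p₀ * (Real.log γ - Real.log (g y)) := by
        have := hlog y hy
        positivity
      have h3 : 2 / p₀ * p y ≤ -1 := by
        have := mul_le_mul_of_nonneg_left (hpt y hy) (show 0 ≤ 2 / p₀ by positivity)
        have e2 : 2 / p₀ * -(p₀ / 2) = -1 := by field_simp
        linarith
      have h4 := mul_le_mul_of_nonneg_right h3 h2
      linarith)
  simp only [hγ, sub_self, mul_zero, zero_add] at hW
  have h5 : 0 ≤ 2 / p₀ * (q₀ * g t + 2 * M / p₀ *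
      (g t * (Real.log γ - Real.log (g t)) + g t)) := by
    have h6 := hlog t ⟨ht.1, le_rfl⟩
    have h7 := (hgp t ⟨ht.1, le_rfl⟩).le
    positivity
  have h8 : 2 / p₀ * (q₀ * γ + 2 * M / p₀ * γ) < p₀ / 2 := by
    have e3 : 2 / p₀ * (q₀ * γ + 2 * M / p₀ * γ) =
        (4 * q₀ * γ * p₀ + 12 * A * (s + 2 * γ / p₀) * γ) / (2 * p₀ ^ 2) := by
      rw [hM]; field_simp; ring
    rw [e3, div_lt_iff₀ (by positivity)]
    calc 4 * q₀ * γ * p₀ + 12 * A * (s + 2 * γ / p₀) * γ < p₀ ^ 3 := hcrit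
      _ = p₀ / 2 * (2 * p₀ ^ 2) := by ring
  linarith

end Pool.Agent.Helper79K9.TF
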