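import Pool.Agent.Helper79K9.TF.Defs

/-!
# Leaf CROSS (helper30): `n` vanishes soon; general facts on solutions
-/

set_option autoImplicit false

namespace Pool.Agent.Helper79K9.TF
namespace CrossL

open Set Filter Topology

/-- mean value theorem for derivatives within an interval -/
theorem mvt {f f' : ℝ → ℝ} {X a b : ℝ}
    (hf : ∀ t ∈ Icc 0 X, HasDerivWithinAt f (f' t) (Icc 0 X) t) (ha : 0 ≤ a) (hab : a < b)
    (hb : b ≤ X) : ∃ c, a < c ∧ c < b ∧ f b - f a = f' c * (b - a) := by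
  have hcont : ContinuousOn f (Icc a b) := fun t ht =>
    ((hf t ⟨ha.trans ht.1, ht.2.trans hb⟩).continuousWithinAt).mono
      (Icc_subset_Icc ha hb)
  obtain ⟨c, hc, h⟩ := exists_hasDerivAt_eq_slope f f' hab hcont (fun t ht =>
    (hf t ⟨ha.trans ht.1.le, ht.2.le.trans hb⟩).hasDerivAt
      (Icc_mem_nhds (ha.trans_lt ht.1) (ht.2.trans_le hb)))
  refine ⟨c, hc.1, hc.2, ?_⟩
  have : b - a ≠ 0 := by linarith
  rw [h]
  field_simp

theorem anti {f f' : ℝ → ℝ} {X a b : ℝ}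
    (hf : ∀ t ∈ Icc 0 X, HasDerivWithinAt f (f' t) (Icc 0 X) t) (ha : 0 ≤ a) (hab : a ≤ b)
    (hb : b ≤ X) (h : ∀ t, a < t → t < b → f' t ≤ 0) : f b ≤ f a := by
  rcases hab.eq_or_lt with rfl | hab
  · exact le_rfl
  obtain ⟨c, hc1, hc2, hc⟩ := mvt hf ha hab hb
  have := h c hc1 hc2
  nlinarith

theorem mono {f f' : ℝ → ℝ} {X a b : ℝ}
    (hf : ∀ t ∈ Icc 0 X, HasDerivWithinAt f (f' t) (Icc 0 X) t) (ha : 0 ≤ a) (hab : a ≤ b)
    (hb : b ≤ X) (h : ∀ t, a < t → t < b → 0 ≤ f' t) : f a ≤ f b := by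
  rcases hab.eq_or_lt with rfl | hab
  · exact le_rfl
  obtain ⟨c, hc1, hc2, hc⟩ := mvt hf ha hab hb
  have := h c hc1 hc2
  nlinarith

variable {A B X : ℝ} {g p q n : ℝ → ℝ}

theorem dm (h : Sol A B X g p q n) : ∀ t ∈ Icc 0 X,
    HasDerivWithinAt (fun t => g t - 1 - t / 2 * p t) ((p t - t * q t) / 2) (Icc 0 X) t := by
  intro t ht
  have h1 := ((h.dg t ht).sub_const 1).sub
    (((hasDerivWithinAt_id t (Icc 0 X)).div_const 2).mul (h.dp t ht))
  refine h1.congr_deriv ?_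
  simp only [id]
  ring

theorem dr (h : Sol A B X g p q n) : ∀ t ∈ Icc 0 X,
    HasDerivWithinAt (fun t => (p t - t * q t) / 2) (-(t * n t / (2 * g t))) (Icc 0 X) t := by
  intro t ht
  have h1 := ((h.dp t ht).sub ((hasDerivWithinAt_id t (Icc 0 X)).mul (h.dq t ht))).div_const 2
  have hg := (h.pos t ht).ne'
  refine h1.congr_deriv ?_
  simp only [id]
  field_simp
  ring

theorem r0 (h : Sol A B X g p q n) : (p 0 - 0 * q 0) / 2 = 0 := by
  rw [h.p0]; ring

theorem m0 (h : Sol A B X g p q n) : g 0 - 1 - 0 / 2 * p 0 = A - 1 := by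
  rw [h.g0]; ring

/-- `g` is nonincreasing -/
theorem g_anti (h : Sol A B X g p q n) (hp : ∀ t ∈ Icc 0 X, p t ≤ 0) {a b : ℝ} (ha : 0 ≤ a)
    (hab : a ≤ b) (hb : b ≤ X) : g b ≤ g a :=
  anti h.dg ha hab hb fun t h1 h2 => hp t ⟨ha.trans h1.le, h2.le.trans hb⟩

theorem g_le (h : Sol A B X g p q n) (hp : ∀ t ∈ Icc 0 X, p t ≤ 0) {t : ℝ} (ht : t ∈ Icc 0 X) :
    g t ≤ A := by
  have := g_anti h hp le_rfl ht.1 ht.2
  rwa [h.g0] at this

/-- `n''` is nonincreasing -/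
theorem r_anti (h : Sol A B X g p q n) (hn : ∀ t ∈ Icc 0 X, 0 ≤ n t) {a b : ℝ} (ha : 0 ≤ a)
    (hab : a ≤ b) (hb : b ≤ X) : (p b - b * q b) / 2 ≤ (p a - a * q a) / 2 :=
  anti (dr h) ha hab hb fun t h1 h2 => by
    have ht : t ∈ Icc 0 X := ⟨ha.trans h1.le, h2.le.trans hb⟩
    have h3 := h.pos t ht
    have h4 := hn t ht
    have h5 : 0 ≤ t := ht.1
    have : 0 ≤ t * n t / (2 * g t) := by positivity
    linarith

theorem r_nonpos (h : Sol A B X g p q n) (hn : ∀ t ∈ Icc 0 X, 0 ≤ n t) {t : ℝ}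
    (ht : t ∈ Icc 0 X) : (p t - t * q t) / 2 ≤ 0 := by
  have := r_anti h hn le_rfl ht.1 ht.2
  rwa [r0 h] at this

/-- `n'` is nonincreasing -/
theorem m_anti (h : Sol A B X g p q n) (hn : ∀ t ∈ Icc 0 X, 0 ≤ n t) {a b : ℝ} (ha : 0 ≤ a)
    (hab : a ≤ b) (hb : b ≤ X) : g b - 1 - b / 2 * p b ≤ g a - 1 - a / 2 * p a :=
  anti (dm h) ha hab hb fun _ h1 h2 => r_nonpos h hn ⟨ha.trans h1.le, h2.le.trans hb⟩

theorem m_le (h : Sol A B X g p q n) (hn : ∀ t ∈ Icc 0 X, 0 ≤ n t) {t : ℝ} (ht : t ∈ Icc 0 X) :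
    g t - 1 - t / 2 * p t ≤ A - 1 := by
  have := m_anti h hn le_rfl ht.1 ht.2
  rwa [m0 h] at this

/-- `n` is positive near `0` -/
theorem n_pos_near (h : Sol A B X g p q n) (hA : 1 < A) (hX : 0 < X) :
    ∃ δ, 0 < δ ∧ δ ≤ X ∧ (∀ t, 0 ≤ t → t ≤ δ → 0 < g t - 1 - t / 2 * p t) ∧
      ∀ t, 0 < t → t ≤ δ → 0 < n t := by
  have h0 : (0 : ℝ) ∈ Icc 0 X := ⟨le_rfl, hX.le⟩
  have hc := (dm h 0 h0).continuousWithinAt
  have h1 : 0 < (fun t => g t - 1 - t / 2 * p t) 0 := by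
    show 0 < g 0 - 1 - 0 / 2 * p 0
    rw [m0 h]; linarith
  have h2 := (hc.eventually (lt_mem_nhds h1))
  rw [eventually_nhdsWithin_iff, Metric.eventually_nhds_iff] at h2
  obtain ⟨ε, hε, h3⟩ := h2
  have hδ : 0 < min (ε / 2) X := by positivity
  have h4 : ∀ t, 0 ≤ t → t ≤ min (ε / 2) X → 0 < g t - 1 - t / 2 * p t := by
    intro t ht0 ht1
    refine h3 ?_ ⟨ht0, ht1.trans (min_le_right _ _)⟩
    rw [Real.dist_eq, sub_zero, abs_of_nonneg ht0]
    have := ht1.trans (min_le_left _ _)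
    linarith
  refine ⟨min (ε / 2) X, hδ, min_le_right _ _, h4, ?_⟩
  intro t ht0 ht1
  obtain ⟨c, hc1, hc2, hc3⟩ := mvt h.dn le_rfl ht0 (ht1.trans (min_le_right _ _))
  rw [h.n0, sub_zero, sub_zero] at hc3
  rw [hc3]
  exact mul_pos (h4 c hc1.le (hc2.le.trans ht1)) ht0

/-- `q` is nondecreasing -/
theorem q_mono (h : Sol A B X g p q n) (hn : ∀ t ∈ Icc 0 X, 0 ≤ n t) {a b : ℝ} (ha : 0 ≤ a)
    (hab : a ≤ b) (hb : b ≤ X) : q a ≤ q b :=
  mono h.dq ha hab hb fun t h1 h2 => by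
    have ht : t ∈ Icc 0 X := ⟨ha.trans h1.le, h2.le.trans hb⟩
    exact div_nonneg (hn t ht) (h.pos t ht).le

/-- `p` is negative in the interior -/
theorem p_neg (h : Sol A B X g p q n) (hB : 0 < B) (hp : ∀ t ∈ Icc 0 X, p t ≤ 0)
    (hn : ∀ t ∈ Icc 0 X, 0 ≤ n t) {t₁ : ℝ} (h0 : 0 < t₁) (h1 : t₁ < X) : p t₁ < 0 := by
  by_contra hcon
  have hX : 0 < X := h0.trans h1
  have ht1 : t₁ ∈ Icc 0 X := ⟨h0.le, h1.le⟩
  have hp1 : p t₁ = 0 := le_antisymm (hp t₁ ht1) (not_lt.1 hcon)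
  have hnb : Icc 0 X ∈ 𝓝 t₁ := Icc_mem_nhds h0 h1
  have hmax : IsLocalMax p t₁ := by
    filter_upwards [hnb] with t ht
    rw [hp1]
    exact hp t ht
  have hq1 : q t₁ = 0 := hmax.hasDerivAt_eq_zero ((h.dp t₁ ht1).hasDerivAt hnb)
  -- `q` is negative near `0`
  have hc := (h.dq 0 ⟨le_rfl, hX.le⟩).continuousWithinAt
  have h2 : q 0 < 0 := by rw [h.q0]; linarith
  have h3 := (hc.eventually (gt_mem_nhds h2))
  rw [eventually_nhdsWithin_iff, Metric.eventually_nhds_iff] at h3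
  obtain ⟨ε, hε, h3⟩ := h3
  set t := min (ε / 2) t₁ with ht
  have ht0 : 0 < t := by positivity
  have htt : t ≤ t₁ := min_le_right _ _
  have hq : ∀ c, 0 < c → c < t₁ → q c ≤ 0 := fun c hc1 hc2 => by
    have := q_mono h hn hc1.le hc2.le h1.le
    rwa [hq1] at this
  have hpt : 0 ≤ p t := by
    have := anti h.dp ht0.le htt h1.le fun c hc1 hc2 => hq c (ht0.trans hc1) hc2
    rwa [hp1] at this
  obtain ⟨c, hc1, hc2, hc3⟩ := mvt h.dp le_rfl ht0 (htt.trans h1.le)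
  rw [h.p0, sub_zero, sub_zero] at hc3
  have h4 : q c < 0 := by
    refine h3 ?_ ⟨hc1.le, hc2.le.trans (htt.trans h1.le)⟩
    rw [Real.dist_eq, sub_zero, abs_of_pos hc1]
    have : t ≤ ε / 2 := min_le_left _ _
    linarith
  nlinarith

/-- the upper bound for `n` -/
theorem n_le (h : Sol A B X g p q n) (hp : ∀ t ∈ Icc 0 X, p t ≤ 0) {t : ℝ} (ht : t ∈ Icc 0 X) :
    n t ≤ 3 / 2 * A * t := by
  have hd : ∀ t ∈ Icc 0 X, HasDerivWithinAt (fun t => n t + t / 2 * g t - 3 / 2 * A * t)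
      (3 / 2 * g t - 1 - 3 / 2 * A) (Icc 0 X) t := by
    intro t ht
    have h1 := ((h.dn t ht).add
      (((hasDerivWithinAt_id t (Icc 0 X)).div_const 2).mul (h.dg t ht))).sub
        ((hasDerivWithinAt_id t (Icc 0 X)).const_mul (3 / 2 * A))
    refine h1.congr_deriv ?_
    simp only [id]
    ring
  have h1 := anti hd le_rfl ht.1 ht.2 fun c hc1 hc2 => by
    have := g_le h hp ⟨hc1.le, hc2.le.trans ht.2⟩
    linarith
  simp only [h.n0] at h1
  have h2 : 0 ≤ t / 2 * g t := mul_nonneg (by linarith [ht.1]) (h.pos t ht).le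
  linarith

theorem Sol.restrict (h : Sol A B X g p q n) {Y : ℝ} (h0 : 0 ≤ Y) (h1 : Y ≤ X) :
    Sol A B Y g p q n := by
  have hs : Icc 0 Y ⊆ Icc 0 X := Icc_subset_Icc le_rfl h1
  exact ⟨h0, h.g0, h.p0, h.q0, h.n0, fun t ht => h.pos t (hs ht),
    fun t ht => (h.dg t (hs ht)).mono hs, fun t ht => (h.dp t (hs ht)).mono hs,
    fun t ht => (h.dq t (hs ht)).mono hs, fun t ht => (h.dn t (hs ht)).mono hs⟩

end CrossL

open Set CrossL in
theorem cross : S_CROSS := by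
  intro A B X g p q n h hA hp hn
  rcases h.X0.eq_or_lt with hX | hX
  · rw [← hX]; nlinarith
  set Y := X / 2 with hY
  have hY0 : 0 < Y := by positivity
  have hYX : Y < X := by rw [hY]; linarith
  have hYm : Y ∈ Icc 0 X := ⟨hY0.le, hYX.le⟩
  set mu := n Y with hmu
  have hmu0 : 0 ≤ mu := hn Y hYm
  -- the chord
  have hchord : ∀ t, 0 < t → t < Y → mu * t ≤ n t * Y := by
    intro t ht0 ht1
    obtain ⟨c1, hc1, hc2, hc3⟩ := mvt h.dn le_rfl ht0 (ht1.le.trans hYX.le)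
    obtain ⟨c2, hd1, hd2, hd3⟩ := mvt h.dn ht0.le ht1 hYX.le
    have h1 := m_anti h hn hc1.le (hc2.trans hd1).le (hd2.le.trans hYX.le)
    rw [h.n0, sub_zero, sub_zero] at hc3
    have h2 : (n Y - n t) * t ≤ n t * (Y - t) := by
      rw [hd3, hc3]
      have : 0 ≤ t * (Y - t) := mul_nonneg ht0.le (by linarith)
      nlinarith
    nlinarith
  -- the slope at `Y`
  have hslope : (g Y - 1 - Y / 2 * p Y) * Y ≤ mu := by
    obtain ⟨c, hc1, hc2, hc3⟩ := mvt h.dn le_rfl hY0 hYX.le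
    have h1 := m_anti h hn hc1.le hc2.le hYX.le
    rw [h.n0, sub_zero, sub_zero] at hc3
    rw [hmu, hc3]
    exact mul_le_mul_of_nonneg_right h1 hY0.le
  -- positivity of `mu`
  have hmup : 0 < mu := by
    by_contra hcon
    have hmu1 : mu = 0 := le_antisymm (not_lt.1 hcon) hmu0
    have h1 : g Y - 1 - Y / 2 * p Y ≤ 0 := by
      rw [hmu1] at hslope
      by_contra hc
      have := mul_pos (not_le.1 hc) hY0
      linarith
    have h2 : g Y - 1 - Y / 2 * p Y = 0 := by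
      refine le_antisymm h1 ?_
      obtain ⟨c, hc1, hc2, hc3⟩ := mvt h.dn hY0.le hYX le_rfl
      have h3 := m_anti h hn hY0.le hc1.le hc2.le
      have h4 := hn X ⟨hX.le, le_rfl⟩
      rw [← hmu, hmu1, sub_zero] at hc3
      by_contra hc
      have h5 : g c - 1 - c / 2 * p c < 0 := by linarith
      have h6 : (g c - 1 - c / 2 * p c) * (X - Y) < 0 := mul_neg_of_neg_of_pos h5 (by linarith)
      linarith
    obtain ⟨δ, hδ0, hδX, -, hδn⟩ := n_pos_near h hA hX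
    set t := min δ (Y / 2) with ht
    have ht0 : 0 < t := by positivity
    have htY : t < Y := (min_le_right _ _).trans_lt (by linarith)
    have h3 := hδn t ht0 (min_le_left _ _)
    have h4 := mono h.dn ht0.le htY.le hYX.le fun c hc1 hc2 => by
      have := m_anti h hn (ht0.trans hc1).le hc2.le hYX.le
      linarith
    have h5 : n Y = 0 := hmu1
    linarith
  -- the second derivative
  have hA0 : 0 < A := by linarith
  have hd1 : ∀ t ∈ Icc 0 X, HasDerivWithinAt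
      (fun t => (p t - t * q t) / 2 + mu / (2 * Y * A) * (t ^ 3 / 3))
      (-(t * n t / (2 * g t)) + mu / (2 * Y * A) * t ^ 2) (Icc 0 X) t := by
    intro t ht
    have h1 := (dr h t ht).add ((((hasDerivWithinAt_id t (Icc 0 X)).pow 3).div_const 3).const_mul
      (mu / (2 * Y * A)))
    refine h1.congr_deriv ?_
    simp only [id]
    push_cast
    ring
  have hr : (p Y - Y * q Y) / 2 ≤ -(mu * Y ^ 2 / (6 * A)) := by
    have h1 := anti hd1 le_rfl hY0.le hYX.le fun t ht0 ht1 => by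
      have h2 := hchord t ht0 ht1
      have h3 : t ∈ Icc 0 X := ⟨ht0.le, ht1.le.trans hYX.le⟩
      have h4 := h.pos t h3
      have h5 := g_le h hp h3
      have h6 : mu / (2 * Y * A) * t ^ 2 ≤ t * n t / (2 * g t) := by
        have h7 : mu / (2 * Y * A) * t ^ 2 ≤ t * n t / (2 * A) := by
          rw [div_mul_eq_mul_div, div_le_div_iff₀ (by positivity) (by positivity)]
          have h8 : 0 ≤ 2 * A * t := by positivity
          nlinarith [mul_le_mul_of_nonneg_left h2 h8]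
        have h8 : t * n t / (2 * A) ≤ t * n t / (2 * g t) :=
          div_le_div_of_nonneg_left (mul_nonneg ht0.le (hn t h3)) (by positivity) (by linarith)
        linarith
      linarith
    simp only [h.p0] at h1
    have h2 : mu / (2 * Y * A) * (Y ^ 3 / 3) = mu * Y ^ 2 / (6 * A) := by
      field_simp
      ring
    rw [h2] at h1
    norm_num at h1
    linarith
  -- the first derivative after `Y`
  set κ := mu * Y ^ 2 / (6 * A) with hκ
  have hd2 : ∀ t ∈ Icc 0 X, HasDerivWithinAt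
      (fun t => g t - 1 - t / 2 * p t + κ * t) ((p t - t * q t) / 2 + κ) (Icc 0 X) t := by
    intro t ht
    have h1 := (dm h t ht).add ((hasDerivWithinAt_id t (Icc 0 X)).const_mul κ)
    refine h1.congr_deriv ?_
    ring
  have hm : ∀ t, Y ≤ t → t ≤ X →
      g t - 1 - t / 2 * p t ≤ g Y - 1 - Y / 2 * p Y - κ * (t - Y) := by
    intro t ht0 ht1
    have h1 := anti hd2 hY0.le ht0 ht1 fun c hc1 hc2 => by
      have := r_anti h hn hY0.le hc1.le (hc2.le.trans ht1)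
      linarith
    linarith
  have hd3 : ∀ t ∈ Icc 0 X, HasDerivWithinAt
      (fun t => n t - (g Y - 1 - Y / 2 * p Y) * t + κ * ((t - Y) ^ 2 / 2))
      (g t - 1 - t / 2 * p t - (g Y - 1 - Y / 2 * p Y) + κ * (t - Y)) (Icc 0 X) t := by
    intro t ht
    have h1 := ((h.dn t ht).sub ((hasDerivWithinAt_id t (Icc 0 X)).const_mul
      (g Y - 1 - Y / 2 * p Y))).add (((((hasDerivWithinAt_id t (Icc 0 X)).sub_const Y).pow
        2).div_const 2).const_mul κ)
    refine h1.congr_deriv ?_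
    simp only [id]
    push_cast
    ring
  have h1 := anti hd3 hY0.le hYX.le le_rfl fun c hc1 hc2 => by
    have := hm c hc1.le hc2.le
    linarith
  simp only [sub_self] at h1
  have h2 := hn X ⟨hX.le, le_rfl⟩
  have hXY : X = 2 * Y := by rw [hY]; ring
  have h3 : κ * (Y ^ 2 / 2) ≤ 2 * mu := by
    have h4 : X - Y = Y := by rw [hXY]; ring
    rw [h4] at h1
    have h5 : (g Y - 1 - Y / 2 * p Y) * X = 2 * ((g Y - 1 - Y / 2 * p Y) * Y) := by
      rw [hXY]; ring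
    rw [h5] at h1
    norm_num at h1
    linarith
  rw [hκ] at h3
  have h4 : mu * Y ^ 4 ≤ mu * (24 * A) := by
    have h5 : mu * Y ^ 2 / (6 * A) * (Y ^ 2 / 2) = mu * Y ^ 4 / (12 * A) := by
      field_simp
      ring
    rw [h5, div_le_iff₀ (by positivity)] at h3
    linarith
  have h5 := le_of_mul_le_mul_left h4 hmup
  rw [hXY]
  nlinarith

end Pool.Agent.Helper79K9.TF
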