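import Mathlib

/-!
# Zero contact angle extinction profiles for a thin film equation: statements of the parts

`MP_db815f_an`: there IS an admissible profile. The ODE `-(g g''')' - ξ g' / 2 + g - 1 = 0` is written
as a system for `g`, `p = g'`, `q = g''`, `n = g g'''`, with data `(A, 0, -B, 0)` at `0`.
-/

set_option autoImplicit false

namespace Pool.Agent.Helper79K9.TF

open Set Filter Topology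

/-- a solution on `[0, X]` -/
structure Sol (A B X : ℝ) (g p q n : ℝ → ℝ) : Prop where
  X0 : 0 ≤ X
  g0 : g 0 = A
  p0 : p 0 = 0
  q0 : q 0 = -B
  n0 : n 0 = 0
  pos : ∀ t ∈ Icc 0 X, 0 < g t
  dg : ∀ t ∈ Icc 0 X, HasDerivWithinAt g (p t) (Icc 0 X) t
  dp : ∀ t ∈ Icc 0 X, HasDerivWithinAt p (q t) (Icc 0 X) t
  dq : ∀ t ∈ Icc 0 X, HasDerivWithinAt q (n t / g t) (Icc 0 X) t
  dn : ∀ t ∈ Icc 0 X, HasDerivWithinAt n (g t - 1 - t / 2 * p t) (Icc 0 X) t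

/-- the (maximal) solutions `G A B`, `P A B`, `Q A B`, `N A B`; `D A B X` means that the solution with
data `A, B` exists on `[0, X]` -/
structure Flow (G P Q N : ℝ → ℝ → ℝ → ℝ) (D : ℝ → ℝ → ℝ → Prop) : Prop where
  dom0 : ∀ A B, 0 < A → D A B 0
  dle : ∀ A B X Y, D A B X → 0 ≤ Y → Y ≤ X → D A B Y
  sol : ∀ A B X, D A B X → Sol A B X (G A B) (P A B) (Q A B) (N A B)
  ext : ∀ A B X, D A B X → ∃ Y, X < Y ∧ D A B Y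
  cont : ∀ A B X, D A B X → ∀ ε > 0, ∃ η > 0, ∀ A' B', |A' - A| < η → |B' - B| < η →
    D A' B' X ∧ ∀ t ∈ Icc 0 X, |G A' B' t - G A B t| < ε ∧ |P A' B' t - P A B t| < ε ∧
      |Q A' B' t - Q A B t| < ε ∧ |N A' B' t - N A B t| < ε
  lim : ∀ A B T δ R, 0 < T → (∀ X, 0 ≤ X → X < T → D A B X) → 0 < δ →
    (∀ t, 0 ≤ t → t < T → δ ≤ G A B t ∧ |N A B t| ≤ R) → D A B T

/-- BASE -/
def S_BASE : Prop := ∃ (G P Q N : ℝ → ℝ → ℝ → ℝ) (D : ℝ → ℝ → ℝ → Prop), Flow G P Q N D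

/-- CRIT: a solution with small height and large slope goes on decreasing -/
def S_CRIT : Prop :=
  ∀ (A B X s γ p₀ q₀ : ℝ) (g p q n : ℝ → ℝ), Sol A B X g p q n → 0 < A → 0 ≤ s → s ≤ X →
    (∀ t ∈ Icc 0 s, p t ≤ 0) → g s = γ → 0 < p₀ → p s ≤ -p₀ → 0 ≤ q₀ → q s ≤ q₀ →
    4 * q₀ * γ * p₀ + 12 * A * (s + 2 * γ / p₀) * γ < p₀ ^ 3 →
    ∀ t ∈ Icc s X, p t < -(p₀ / 2)

/-- CROSS: `n` vanishes soon -/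
def S_CROSS : Prop :=
  ∀ (A B X : ℝ) (g p q n : ℝ → ℝ), Sol A B X g p q n → 1 < A →
    (∀ t ∈ Icc 0 X, p t ≤ 0) → (∀ t ∈ Icc 0 X, 0 ≤ n t) → X ^ 4 ≤ 384 * A

/-- the parameters whose solution turns -/
def Tset (P : ℝ → ℝ → ℝ → ℝ) (D : ℝ → ℝ → ℝ → Prop) : Set (ℝ × ℝ) :=
  {a | ∃ X, D a.1 a.2 X ∧ 0 < P a.1 a.2 X}

/-- the parameters for which `n` becomes negative -/
def Nset (N : ℝ → ℝ → ℝ → ℝ) (D : ℝ → ℝ → ℝ → Prop) : Set (ℝ × ℝ) :=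
  {a | ∃ X, D a.1 a.2 X ∧ N a.1 a.2 X < 0}

/-- NOTT: under the strict criterion the parameter is not in the closure of `Tset` -/
def S_NOTT : Prop :=
  ∀ (G P Q N : ℝ → ℝ → ℝ → ℝ) (D : ℝ → ℝ → ℝ → Prop), Flow G P Q N D →
    ∀ (A B s p₀ q₀ : ℝ), 0 < A → 0 < B → 0 < s → D A B s → (∀ t, 0 < t → t ≤ s → P A B t < 0) →
    0 < p₀ → P A B s ≤ -p₀ → 0 ≤ q₀ → Q A B s ≤ q₀ →
    4 * q₀ * G A B s * p₀ + 12 * A * (s + 2 * G A B s / p₀) * G A B s < p₀ ^ 3 →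
    (A, B) ∉ closure (Tset P D)

/-- TOP -/
def S_TOP : Prop :=
  ∀ (A B X : ℝ) (g p q n : ℝ → ℝ), Sol A B X g p q n → 1 ≤ A → 0 < B → 600 * A < B ^ 2 → p X ≤ 0

/-- BOT -/
def S_BOT : Prop :=
  ∀ (G P Q N : ℝ → ℝ → ℝ → ℝ) (D : ℝ → ℝ → ℝ → Prop), Flow G P Q N D →
    ∀ A, 1 < A → (A, 0) ∈ Tset P D

/-- OPEN -/
def S_OPEN : Prop :=
  ∀ (G P Q N : ℝ → ℝ → ℝ → ℝ) (D : ℝ → ℝ → ℝ → Prop), Flow G P Q N D →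
    IsOpen (Tset P D) ∧ IsOpen (Nset N D)

/-- LEFT1: small `B` -/
def S_LEFT1 : Prop :=
  ∀ (G P Q N : ℝ → ℝ → ℝ → ℝ) (D : ℝ → ℝ → ℝ → Prop), Flow G P Q N D →
    ∀ A B, 1 < A → A ≤ 2 → 0 < B → B ≤ 7 / 100 → (A, B) ∈ Tset P D ∨ (A, B) ∈ Nset N D

/-- LEFT2: `A` near `1` -/
def S_LEFT2 : Prop :=
  ∀ (G P Q N : ℝ → ℝ → ℝ → ℝ) (D : ℝ → ℝ → ℝ → Prop), Flow G P Q N D →
    ∀ b c, 0 < b → b ≤ c → ∃ A, 1 < A ∧ A < 2 ∧ ∀ B, b ≤ B → B ≤ c → (A, B) ∉ closure (Tset P D)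

/-- RIGHT -/
def S_RIGHT : Prop :=
  ∀ (G P Q N : ℝ → ℝ → ℝ → ℝ) (D : ℝ → ℝ → ℝ → Prop), Flow G P Q N D →
    ∀ B, (20, B) ∈ closure (Tset P D) → (20, B) ∉ Tset P D → (20, B) ∉ Nset N D

/-- LIM: the behaviour of a solution with `p ≤ 0` and `n ≥ 0` -/
def S_LIM : Prop :=
  ∀ (G P Q N : ℝ → ℝ → ℝ → ℝ) (D : ℝ → ℝ → ℝ → Prop), Flow G P Q N D →
    ∀ A B, 1 < A → 0 < B → (A, B) ∉ Tset P D → (A, B) ∉ Nset N D →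
    ∃ T p₁ n₁, 0 < T ∧ (∀ X, D A B X ↔ 0 ≤ X ∧ X < T) ∧ Tendsto (G A B) (𝓝[<] T) (𝓝 0) ∧
      Tendsto (P A B) (𝓝[<] T) (𝓝 p₁) ∧ Tendsto (N A B) (𝓝[<] T) (𝓝 n₁) ∧ p₁ ≤ 0 ∧ 0 ≤ n₁ ∧
      (∀ t, 0 < t → t < T → P A B t < 0) ∧
      Tendsto (fun t => G A B t * max (Q A B t) 0) (𝓝[<] T) (𝓝 0)

/-- KEY1: zero contact angle -/
def S_KEY1 : Prop :=
  ∀ (G P Q N : ℝ → ℝ → ℝ → ℝ) (D : ℝ → ℝ → ℝ → Prop), Flow G P Q N D →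
    ∀ A B, 1 < A → 0 < B → (A, B) ∉ Tset P D → (A, B) ∉ Nset N D → (A, B) ∈ closure (Tset P D) →
    ∃ T n₁, 0 < T ∧ (∀ X, D A B X ↔ 0 ≤ X ∧ X < T) ∧ Tendsto (G A B) (𝓝[<] T) (𝓝 0) ∧
      Tendsto (P A B) (𝓝[<] T) (𝓝 0) ∧ Tendsto (N A B) (𝓝[<] T) (𝓝 n₁) ∧ 0 ≤ n₁

/-- KEY2: if the limit of `n` is positive, the neighbours outside `Tset` are outside `Nset` -/
def S_KEY2 : Prop :=
  ∀ (G P Q N : ℝ → ℝ → ℝ → ℝ) (D : ℝ → ℝ → ℝ → Prop), Flow G P Q N D →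
    ∀ A B T n₁, 1 < A → 0 < B → (A, B) ∉ Tset P D → (A, B) ∉ Nset N D → 0 < T →
    (∀ X, D A B X ↔ 0 ≤ X ∧ X < T) →
    Tendsto (P A B) (𝓝[<] T) (𝓝 0) → Tendsto (N A B) (𝓝[<] T) (𝓝 n₁) → 0 < n₁ →
    ∀ᶠ a in 𝓝 (A, B), a ∉ Tset P D → a ∉ Nset N D

/-- PLAN: a planar separation lemma (Poincaré-Miranda) -/
def S_PLAN : Prop :=
  ∀ (U V : Set (ℝ × ℝ)) (a b c d : ℝ), a < b → c < d → IsOpen U → IsOpen V →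
    (∀ x, a ≤ x → x ≤ b → (x, c) ∈ U) → (∀ x, a ≤ x → x ≤ b → (x, d) ∉ closure U) →
    (∀ y, c ≤ y → y ≤ d → (a, y) ∈ closure U → (a, y) ∉ U → (a, y) ∈ V) →
    (∀ y, c ≤ y → y ≤ d → (b, y) ∈ closure U → (b, y) ∉ U → (b, y) ∉ V) →
    ∃ z : ℝ × ℝ, a ≤ z.1 ∧ z.1 ≤ b ∧ c ≤ z.2 ∧ z.2 ≤ d ∧ z ∈ closure U ∧ z ∉ U ∧ z ∉ V ∧
      z ∈ closure {w | w ∈ V ∧ w ∉ U}

/-- admissible profile, as in the problem -/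
def Adm (ξ₀ : ℝ) (g : ℝ → ℝ) : Prop :=
  0 < ξ₀ ∧ ContDiffOn ℝ 4 g (Ico 0 ξ₀) ∧ (∀ x ∈ Ico 0 ξ₀, 0 < g x) ∧
  (∀ x ∈ Ico 0 ξ₀,
    -derivWithin (fun y => g y * iteratedDerivWithin 3 g (Ico 0 ξ₀) y) (Ico 0 ξ₀) x
      - x / 2 * derivWithin g (Ico 0 ξ₀) x + g x - 1 = 0) ∧
  derivWithin g (Ico 0 ξ₀) 0 = 0 ∧ iteratedDerivWithin 3 g (Ico 0 ξ₀) 0 = 0 ∧
  Tendsto g (𝓝[<] ξ₀) (𝓝 0) ∧ Tendsto (derivWithin g (Ico 0 ξ₀)) (𝓝[<] ξ₀) (𝓝 0) ∧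
  Tendsto (fun x => g x * iteratedDerivWithin 3 g (Ico 0 ξ₀) x) (𝓝[<] ξ₀) (𝓝 0)

/-- REG -/
def S_REG : Prop :=
  ∀ (G P Q N : ℝ → ℝ → ℝ → ℝ) (D : ℝ → ℝ → ℝ → Prop), Flow G P Q N D →
    ∀ A B T, 0 < T → (∀ X, D A B X ↔ 0 ≤ X ∧ X < T) → Tendsto (G A B) (𝓝[<] T) (𝓝 0) →
      Tendsto (P A B) (𝓝[<] T) (𝓝 0) → Tendsto (N A B) (𝓝[<] T) (𝓝 0) → Adm T (G A B)

end Pool.Agent.Helper79K9.TF
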