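import Pool.Agent.Helper79K9.TF.Nott

/-!
# Zero contact angle profiles: the slope vanishes at the end
-/

set_option autoImplicit false

namespace Pool.Agent.Helper79K9.TF

open Set Filter Topology

theorem key1 (lim : S_LIM) : S_KEY1 := by
  intro G P Q N D hF A B hA hB hT hN hcl
  obtain ⟨T, p₁, n₁, hT0, hD, hG, hP, hNn, hp₁, hn₁, hneg, hGQ⟩ := lim G P Q N D hF A B hA hB hT hN
  refine ⟨T, n₁, hT0, hD, hG, ?_, hNn, hn₁⟩
  rcases hp₁.lt_or_eq with h | h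
  · exfalso
    have hA0 : 0 < A := by linarith
    set p₀ : ℝ := -p₁ / 2 with hp₀
    have hp₀pos : 0 < p₀ := by rw [hp₀]; linarith
    have e1 : ∀ᶠ s in 𝓝[<] T, P A B s < -p₀ := hP.eventually (gt_mem_nhds (by rw [hp₀]; linarith))
    have hs : Tendsto (fun s : ℝ => s) (𝓝[<] T) (𝓝 T) := tendsto_id.mono_left nhdsWithin_le_nhds
    have hlim : Tendsto (fun s => 4 * (max (Q A B s) 0) * G A B s * p₀ +
        12 * A * (s + 2 * G A B s / p₀) * G A B s) (𝓝[<] T)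
        (𝓝 (4 * 0 * p₀ + 12 * A * (T + 2 * 0 / p₀) * 0)) := by
      have h1 : Tendsto (fun s => 4 * (G A B s * max (Q A B s) 0) * p₀) (𝓝[<] T)
        (𝓝 (4 * 0 * p₀)) := (hGQ.const_mul 4).mul_const p₀
      have h2 : Tendsto (fun s => 12 * A * (s + 2 * G A B s / p₀) * G A B s) (𝓝[<] T)
        (𝓝 (12 * A * (T + 2 * 0 / p₀) * 0)) :=
        ((hs.add ((hG.const_mul 2).div_const p₀)).const_mul (12 * A)).mul hG
      refine (h1.add h2).congr fun s => ?_
      ring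
    have hz : 4 * 0 * p₀ + 12 * A * (T + 2 * 0 / p₀) * 0 = 0 := by ring
    rw [hz] at hlim
    have e2 := hlim.eventually (gt_mem_nhds (show (0 : ℝ) < p₀ ^ 3 by positivity))
    have e3 : ∀ᶠ s in 𝓝[<] T, s ∈ Ioo 0 T := Ioo_mem_nhdsLT hT0
    obtain ⟨s, ⟨h1, h2⟩, h3⟩ := ((e1.and e2).and e3).exists
    refine nott G P Q N D hF A B s p₀ (max (Q A B s) 0) hA0 hB h3.1 ((hD s).2 ⟨h3.1.le, h3.2⟩)
      (fun t ht hts => hneg t ht (hts.trans_lt h3.2)) hp₀pos h1.le (le_max_right _ _)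
      (le_max_left _ _) h2 hcl
  · rw [← h]; exact hP

end Pool.Agent.Helper79K9.TF
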