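import Pool.Agent.Helper79K9.TF.Lim

/-!
# Leaf KEY2 (helper30)
-/

set_option autoImplicit false

namespace Pool.Agent.Helper79K9.TF
namespace Key2L

open Set Filter Topology CrossL LimL

/-- the argument at the neighbours: `n` stays positive after `s` -/
theorem after {A B X s c ν : ℝ} {g p q n : ℝ → ℝ} (h : Sol A B X g p q n)
    (hp : ∀ t ∈ Icc 0 X, p t ≤ 0) (hs : 0 ≤ s) (hsX : s ≤ X) (hc : 0 < c) (hν : 0 < ν)
    (hq : c ≤ q s) (hps : -(c * ν) ≤ p s) (hns : ν < n s) : 0 ≤ n X := by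
  by_contra hcon
  have hcon := not_le.1 hcon
  -- the first zero
  have hcont : ContinuousOn n (Icc s X) := fun t ht =>
    ((h.dn t ⟨hs.trans ht.1, ht.2⟩).continuousWithinAt).mono (Icc_subset_Icc hs le_rfl)
  set Z := {t | t ∈ Icc s X ∧ n t ≤ 0} with hZ
  have hZne : Z.Nonempty := ⟨X, ⟨hsX, le_rfl⟩, hcon.le⟩
  have hZb : BddBelow Z := ⟨s, fun t ht => ht.1.1⟩
  have hZc : IsClosed Z := by
    have : Z = Icc s X ∩ n ⁻¹' (Iic 0) := by
      ext t; rfl
    rw [this]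
    exact hcont.preimage_isClosed_of_isClosed isClosed_Icc isClosed_Iic
  obtain ⟨z, hz⟩ : ∃ z, IsLeast Z z := ⟨_, hZc.isLeast_csInf hZne hZb⟩
  have hzs : s ≤ z := hz.1.1.1
  have hzX : z ≤ X := hz.1.1.2
  have hpos : ∀ t, s ≤ t → t < z → 0 < n t := by
    intro t h1 h2
    by_contra h3
    exact absurd (hz.2 ⟨⟨h1, h2.le.trans hzX⟩, not_lt.1 h3⟩) (not_le.2 h2)
  have hqt : ∀ t, s ≤ t → t < z → c ≤ q t := by
    intro t h1 h2
    refine hq.trans (mono h.dq hs h1 (h2.le.trans hzX) fun u hu1 hu2 => ?_)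
    exact div_nonneg (hpos u hu1.le (hu2.trans h2)).le
      (h.pos u ⟨hs.trans hu1.le, (hu2.trans h2).le.trans hzX⟩).le
  rcases hzs.eq_or_lt with h4 | h4
  · have := hz.1.2
    rw [← h4] at this
    linarith
  obtain ⟨u, hu1, hu2, hu3⟩ := mvt h.dp hs h4 hzX
  have h5 := hqt u hu1.le hu2
  have h6 := hp z ⟨hs.trans hzs, hzX⟩
  have h7 : c * (z - s) ≤ c * ν := by nlinarith
  have h8 : z - s ≤ ν := le_of_mul_le_mul_left h7 hc
  obtain ⟨v, hv1, hv2, hv3⟩ := mvt h.dn hs h4 hzX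
  have hvm : v ∈ Icc 0 X := ⟨hs.trans hv1.le, hv2.le.trans hzX⟩
  have h9 : -1 ≤ g v - 1 - v / 2 * p v := by
    have h10 := h.pos v hvm
    have h11 := hp v hvm
    have h12 : 0 ≤ v / 2 * -p v := mul_nonneg (by linarith [hvm.1]) (by linarith)
    linarith
  have h10 := hz.1.2
  nlinarith

end Key2L

open Set Filter Topology CrossL LimL Key2L in
theorem key2 : S_KEY2 := by
  intro G P Q N D hF A B T n₁ hA hB hT hN hT0 hdom hPl hNl hn1
  have hS : ∀ X, 0 ≤ X → X < T → Sol A B X (G A B) (P A B) (Q A B) (N A B) := fun X h0 h1 =>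
    hF.sol A B X ((hdom X).2 ⟨h0, h1⟩)
  have hp : ∀ X, 0 ≤ X → X < T → ∀ t ∈ Icc 0 X, P A B t ≤ 0 := fun X h0 h1 =>
    Ppi hF hT ((hdom X).2 ⟨h0, h1⟩)
  have hn : ∀ X, 0 ≤ X → X < T → ∀ t ∈ Icc 0 X, 0 ≤ N A B t := fun X h0 h1 =>
    Nni hF hN ((hdom X).2 ⟨h0, h1⟩)
  have hpneg : ∀ t, 0 < t → t < T → P A B t < 0 := by
    intro t h0 h1
    have h2 : 0 ≤ (t + T) / 2 := by linarith
    have h3 : (t + T) / 2 < T := by linarith
    exact p_neg (hS _ h2 h3) hB (hp _ h2 h3) (hn _ h2 h3) h0 (by linarith)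
  -- `n` is positive in the interior
  have hnpos : ∀ t, 0 < t → t < T → 0 < N A B t := by
    intro t h0 h1
    by_contra hcon
    have hnt : N A B t = 0 := le_antisymm (not_lt.1 hcon) (hn t h0.le h1 t ⟨h0.le, le_rfl⟩)
    obtain ⟨c, hc1, hc2, hc3⟩ := mvt (hS t h0.le h1).dn le_rfl h0 le_rfl
    rw [hnt, (hS t h0.le h1).n0, sub_zero, sub_zero] at hc3
    have hc4 : G A B c - 1 - c / 2 * P A B c = 0 := by
      rcases mul_eq_zero.1 hc3.symm with h | h
      · exact h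
      · linarith
    have h2 : ∀ᶠ s in 𝓝[<] T, N A B s ≤ 0 := by
      filter_upwards [Ioo_mem_nhdsLT h1] with s hs
      have hs0 : 0 ≤ s := h0.le.trans hs.1.le
      have := anti (hS s hs0 hs.2).dn h0.le hs.1.le le_rfl fun u hu1 hu2 => by
        have := m_anti (hS s hs0 hs.2) (hn s hs0 hs.2) hc1.le (hc2.trans hu1).le hu2.le
        linarith
      linarith
    have := le_of_tendsto hNl h2
    linarith
  -- a point with `q > 0`
  obtain ⟨t₀, ht0, ht1, hq0⟩ : ∃ t₀, 0 < t₀ ∧ t₀ < T ∧ 0 < Q A B t₀ := by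
    by_contra hcon
    push Not at hcon
    have h1 : 0 < T / 2 := by positivity
    have h2 : T / 2 < T := by linarith
    have h3 := hpneg _ h1 h2
    have h4 : ∀ᶠ s in 𝓝[<] T, P A B s ≤ P A B (T / 2) := by
      filter_upwards [Ioo_mem_nhdsLT h2] with s hs
      exact anti (hS s (h1.le.trans hs.1.le) hs.2).dp h1.le hs.1.le le_rfl fun u hu1 hu2 =>
        hcon u (h1.trans hu1) (hu2.trans hs.2)
    have := le_of_tendsto hPl h4
    linarith
  set c := Q A B t₀ with hc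
  -- choice of `s`
  have hev1 : ∀ᶠ t in 𝓝[<] T, -(c / 2 * (n₁ / 4)) < P A B t := by
    refine hPl.eventually (lt_mem_nhds ?_)
    have : 0 < c / 2 * (n₁ / 4) := by positivity
    linarith
  have hev2 : ∀ᶠ t in 𝓝[<] T, n₁ / 2 < N A B t := hNl.eventually (lt_mem_nhds (by linarith))
  obtain ⟨s, ⟨hs1, hs2⟩, hs3⟩ := ((hev1.and hev2).and (Ioo_mem_nhdsLT ht1)).exists
  have hs0 : 0 < s := ht0.trans hs3.1
  have hqs : c ≤ Q A B s :=
    q_mono (hS s hs0.le hs3.2) (hn s hs0.le hs3.2) ht0.le hs3.1.le le_rfl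
  -- near zero
  obtain ⟨δ, hδ0, hδs, hδm, hδn⟩ := n_pos_near (hS s hs0.le hs3.2) hA hs0
  have hmc : ContinuousOn (fun t => G A B t - 1 - t / 2 * P A B t) (Icc 0 δ) := fun t ht =>
    ((dm (hS s hs0.le hs3.2) t ⟨ht.1, ht.2.trans hδs⟩).continuousWithinAt).mono
      (Icc_subset_Icc le_rfl hδs)
  obtain ⟨m₀, hm0, hm1⟩ : ∃ m₀, 0 < m₀ ∧ ∀ t ∈ Icc 0 δ,
      m₀ ≤ G A B t - 1 - t / 2 * P A B t := by
    obtain ⟨u, hu, hu1⟩ := isCompact_Icc.exists_isMinOn (nonempty_Icc.2 hδ0.le) hmc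
    exact ⟨_, hδm u hu.1 hu.2, fun t ht => hu1 ht⟩
  have hnc : ContinuousOn (N A B) (Icc δ s) := fun t ht =>
    (((hS s hs0.le hs3.2).dn t ⟨hδ0.le.trans ht.1, ht.2⟩).continuousWithinAt).mono
      (Icc_subset_Icc hδ0.le le_rfl)
  obtain ⟨k₀, hk0, hk1⟩ : ∃ k₀, 0 < k₀ ∧ ∀ t ∈ Icc δ s, k₀ ≤ N A B t := by
    obtain ⟨u, hu, hu1⟩ := isCompact_Icc.exists_isMinOn (nonempty_Icc.2 hδs) hnc
    exact ⟨_, hnpos u (hδ0.trans_le hu.1) (hu.2.trans_lt hs3.2), fun t ht => hu1 ht⟩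
  -- the size of the perturbation
  obtain ⟨ε, hε0, hε1, hε2, hε3, hε4, hε5⟩ : ∃ ε, 0 < ε ∧ ε < c / 2 ∧
      ε < P A B s + c / 2 * (n₁ / 4) ∧ ε < N A B s - n₁ / 2 ∧ ε < k₀ ∧ ε * (1 + s) < m₀ := by
    refine ⟨min (min (c / 4) ((P A B s + c / 2 * (n₁ / 4)) / 2))
      (min (min ((N A B s - n₁ / 2) / 2) (k₀ / 2)) (m₀ / (2 * (1 + s)))), ?_, ?_, ?_, ?_, ?_, ?_⟩
    · refine lt_min (lt_min (by positivity) (by linarith)) (lt_min (lt_min (by linarith)
        (by positivity)) (by positivity))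
    · exact ((min_le_left _ _).trans (min_le_left _ _)).trans_lt (by linarith)
    · exact ((min_le_left _ _).trans (min_le_right _ _)).trans_lt (by linarith)
    · exact ((min_le_right _ _).trans ((min_le_left _ _).trans (min_le_left _ _))).trans_lt
        (by linarith)
    · exact ((min_le_right _ _).trans ((min_le_left _ _).trans (min_le_right _ _))).trans_lt
        (by linarith)
    · have h1 : (0 : ℝ) < 1 + s := by linarith
      calc _ ≤ m₀ / (2 * (1 + s)) * (1 + s) :=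
            mul_le_mul_of_nonneg_right ((min_le_right _ _).trans (min_le_right _ _)) h1.le
        _ = m₀ / 2 := by field_simp
        _ < m₀ := by linarith
  obtain ⟨η, hη0, hη⟩ := hF.cont A B s ((hdom s).2 ⟨hs0.le, hs3.2⟩) ε hε0
  rw [Metric.eventually_nhds_iff]
  refine ⟨η, hη0, ?_⟩
  rintro ⟨A', B'⟩ hd hTa ⟨X, hX, hXn⟩
  have hdA : |A' - A| < η := by
    have := (le_max_left _ _).trans_lt hd
    rwa [Real.dist_eq] at this
  have hdB : |B' - B| < η := by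
    have := (le_max_right _ _).trans_lt hd
    rwa [Real.dist_eq] at this
  obtain ⟨hDs, hcl⟩ := hη A' B' hdA hdB
  have hSs := hF.sol A' B' s hDs
  -- positivity on `(0, s]`
  have hposs : ∀ t, 0 < t → t ≤ s → 0 < N A' B' t := by
    intro t h0 h1
    rcases le_total t δ with h2 | h2
    · obtain ⟨u, hu1, hu2, hu3⟩ := mvt hSs.dn le_rfl h0 h1
      rw [hSs.n0, sub_zero, sub_zero] at hu3
      rw [hu3]
      refine mul_pos ?_ h0
      have hu4 : u ∈ Icc 0 s := ⟨hu1.le, hu2.le.trans h1⟩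
      have h3 := hm1 u ⟨hu1.le, hu2.le.trans h2⟩
      obtain ⟨h4, h5, -, -⟩ := hcl u hu4
      have h4 := abs_lt.1 h4
      have h5 := abs_lt.1 h5
      have h6 : u / 2 * (P A' B' u - P A B u) ≤ u / 2 * ε :=
        mul_le_mul_of_nonneg_left h5.2.le (by linarith)
      have h7 : u / 2 * ε ≤ s * ε := mul_le_mul_of_nonneg_right (by linarith [hu4.2]) hε0.le
      nlinarith
    · have h3 := hk1 t ⟨h2, h1⟩
      obtain ⟨-, -, -, h4⟩ := hcl t ⟨h0.le, h1⟩
      have h4 := abs_lt.1 h4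
      linarith
  have hXs : s < X := by
    by_contra h1
    have h1 := not_lt.1 h1
    have h0 := (hF.sol A' B' X hX).X0
    rcases h0.eq_or_lt with h2 | h2
    · rw [← h2, (hF.sol A' B' X hX).n0] at hXn
      exact lt_irrefl _ hXn
    · exact absurd hXn (not_lt.2 (hposs X h2 h1).le)
  have h1 := hcl s ⟨hs0.le, le_rfl⟩
  have h2 := abs_lt.1 h1.2.1
  have h3 := abs_lt.1 h1.2.2.1
  have h4 := abs_lt.1 h1.2.2.2
  have h5 := after (hF.sol A' B' X hX) (Ppi hF hTa hX) hs0.le hXs.le (c := c / 2) (ν := n₁ / 4)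
    (by positivity) (by positivity) (by linarith) (by linarith) (by linarith)
  linarith

end Pool.Agent.Helper79K9.TF
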