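import Pool.Agent.Helper79K9.TF.Defs

/-!
[LEFT1] small `B` (helper94)
-/

set_option autoImplicit false

namespace Pool.Agent.Helper79K9.TF

open Set Filter Topology

namespace LeftL

theorem mono {X : ℝ} {f f' : ℝ → ℝ} (h : ∀ t ∈ Icc 0 X, HasDerivWithinAt f (f' t) (Icc 0 X) t)
    (h0 : ∀ t ∈ Ioo 0 X, 0 ≤ f' t) : MonotoneOn f (Icc 0 X) := by
  have hd : ∀ t ∈ Ioo 0 X, HasDerivAt f (f' t) t := fun t ht =>
    (h t (Ioo_subset_Icc_self ht)).hasDerivAt (Icc_mem_nhds ht.1 ht.2)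
  apply monotoneOn_of_deriv_nonneg (convex_Icc 0 X) (fun t ht => (h t ht).continuousWithinAt)
  · rw [interior_Icc]
    exact fun t ht => (hd t ht).differentiableAt.differentiableWithinAt
  · rw [interior_Icc]
    intro t ht
    rw [(hd t ht).deriv]
    exact h0 t ht

/-- continuation -/
theorem cont {G P Q N : ℝ → ℝ → ℝ → ℝ} {D : ℝ → ℝ → ℝ → Prop} (F : Flow G P Q N D)
    {A B X1 δ R : ℝ} (hA : 0 < A) (hX1 : 0 ≤ X1) (hδ : 0 < δ)
    (h : ∀ X, 0 ≤ X → X < X1 → D A B X → δ ≤ G A B X ∧ |N A B X| ≤ R) : D A B X1 := by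
  by_contra hcon
  let S : Set ℝ := {X | 0 ≤ X ∧ X ≤ X1 ∧ D A B X}
  have h0 : (0 : ℝ) ∈ S := ⟨le_rfl, hX1, F.dom0 A B hA⟩
  have hbdd : BddAbove S := ⟨X1, fun X hX => hX.2.1⟩
  set T := sSup S with hT
  have hT0 : 0 ≤ T := le_csSup hbdd h0
  have hT1 : T ≤ X1 := csSup_le ⟨0, h0⟩ fun X hX => hX.2.1
  have hlt : ∀ X, 0 ≤ X → X < T → D A B X := by
    intro X hX0 hX
    obtain ⟨Y, hY, hXY⟩ := exists_lt_of_lt_csSup ⟨0, h0⟩ hX
    exact F.dle A B Y X hY.2.2 hX0 hXY.le
  have hnT : ¬ D A B T := by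
    intro hD
    have hne : T ≠ X1 := fun h => hcon (h ▸ hD)
    have hlt1 : T < X1 := lt_of_le_of_ne hT1 hne
    obtain ⟨Y, hY, hDY⟩ := F.ext A B T hD
    have h1 : T < min Y X1 := lt_min hY hlt1
    have h2 : min Y X1 ∈ S := ⟨hT0.trans h1.le, min_le_right _ _,
      F.dle A B Y _ hDY (hT0.trans h1.le) (min_le_left _ _)⟩
    exact absurd (le_csSup hbdd h2) (not_le.2 h1)
  have hT0' : 0 < T := by
    rcases hT0.lt_or_eq with h1 | h1
    · exact h1
    · exact absurd (h1 ▸ F.dom0 A B hA) hnT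
  exact hnT (F.lim A B T δ R hT0' hlt hδ fun t ht0 ht =>
    h t ht0 (ht.trans_le hT1) (hlt t ht0 ht))

end LeftL

open LeftL in
theorem left1 (hcross : S_CROSS) : S_LEFT1 := by
  intro G P Q N D F A B hA hA2 hB hB2
  by_contra hcon
  push Not at hcon
  obtain ⟨hT, hN⟩ := hcon
  have hP : ∀ X, D A B X → P A B X ≤ 0 := fun X hX => not_lt.1 fun h => hT ⟨X, hX, h⟩
  have hN' : ∀ X, D A B X → 0 ≤ N A B X := fun X hX => not_lt.1 fun h => hN ⟨X, hX, h⟩
  have key : ∀ X, 0 ≤ X → D A B X → A - B * X ^ 2 / 2 ≤ G A B X ∧ G A B X ≤ A ∧ -(B * X) ≤ P A B X := by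
    intro X hX0 hX
    have S := F.sol A B X hX
    have hDt : ∀ t ∈ Icc 0 X, D A B t := fun t ht => F.dle A B X t hX ht.1 ht.2
    have hX' : X ∈ Icc 0 X := ⟨hX0, le_rfl⟩
    have h0' : (0 : ℝ) ∈ Icc 0 X := ⟨le_rfl, hX0⟩
    have hq : ∀ t ∈ Icc 0 X, -B ≤ Q A B t := by
      intro t ht
      have h1 := mono S.dq (fun t ht => div_nonneg (hN' t (hDt t (Ioo_subset_Icc_self ht)))
        (S.pos t (Ioo_subset_Icc_self ht)).le) h0' ht ht.1
      rw [S.q0] at h1
      exact h1
    have hp : ∀ t ∈ Icc 0 X, -(B * t) ≤ P A B t := by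
      intro t ht
      have hd : ∀ t ∈ Icc 0 X, HasDerivWithinAt (fun t => P A B t + B * t) (Q A B t + B) (Icc 0 X) t := by
        intro t ht
        have h1 := (S.dp t ht).add (((hasDerivAt_id t).const_mul B).hasDerivWithinAt (s := Icc 0 X))
        rw [mul_one] at h1
        exact h1
      have h1 := mono hd (fun t ht => by linarith [hq t (Ioo_subset_Icc_self ht)]) h0' ht ht.1
      simp only at h1
      rw [S.p0, mul_zero, add_zero] at h1
      linarith
    refine ⟨?_, ?_, hp X hX'⟩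
    · have hd : ∀ t ∈ Icc 0 X, HasDerivWithinAt (fun t => G A B t + B * t ^ 2 / 2)
          (P A B t + B * t) (Icc 0 X) t := by
        intro t ht
        have h1 := (S.dg t ht).add
          ((((hasDerivAt_pow 2 t).const_mul B).div_const 2).hasDerivWithinAt (s := Icc 0 X))
        have e : P A B t + B * t = P A B t + B * (((2 : ℕ) : ℝ) * t ^ (2 - 1)) / 2 := by
          push_cast
          rw [pow_one]
          ring
        rw [e]
        exact h1
      have h1 := mono hd (fun t ht => by linarith [hp t (Ioo_subset_Icc_self ht)]) h0' hX' hX0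
      simp only at h1
      rw [S.g0] at h1
      linarith
    · have hd : ∀ t ∈ Icc 0 X, HasDerivWithinAt (fun t => - G A B t) (- P A B t) (Icc 0 X) t :=
        fun t ht => (S.dg t ht).neg
      have h1 : - G A B 0 ≤ - G A B X := mono hd (fun t ht => by
        linarith [hP t (hDt t (Ioo_subset_Icc_self ht))]) h0' hX' hX0
      rw [S.g0] at h1
      linarith
  have hup : ∀ X, 0 ≤ X → X ≤ 6 → D A B X → N A B X ≤ 3 * X := by
    intro X hX0 hX6 hX
    have S := F.sol A B X hX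
    have hDt : ∀ t ∈ Icc 0 X, D A B t := fun t ht => F.dle A B X t hX ht.1 ht.2
    have hX' : X ∈ Icc 0 X := ⟨hX0, le_rfl⟩
    have h0' : (0 : ℝ) ∈ Icc 0 X := ⟨le_rfl, hX0⟩
    have hd : ∀ t ∈ Icc 0 X, HasDerivWithinAt (fun t => 3 * t - N A B t)
        (3 - (G A B t - 1 - t / 2 * P A B t)) (Icc 0 X) t := by
      intro t ht
      have h1 := (((hasDerivAt_id t).const_mul 3).hasDerivWithinAt (s := Icc 0 X)).sub (S.dn t ht)
      rw [mul_one] at h1
      exact h1
    have h1 := mono hd (fun t ht => by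
      obtain ⟨h2, h3, h4⟩ := key t ht.1.le (hDt t (Ioo_subset_Icc_self ht))
      have h5 : t ≤ 6 := ht.2.le.trans hX6
      have h6 : t / 2 * -(P A B t) ≤ t / 2 * (B * t) :=
        mul_le_mul_of_nonneg_left (by linarith) (by linarith [ht.1])
      have h7 : t / 2 * (B * t) ≤ 7 / 100 * 18 := by
        have h8 : t * t ≤ 36 := by nlinarith [ht.1]
        have h9 : B * (t * t) ≤ 7 / 100 * 36 := by
          have := mul_self_nonneg t
          nlinarith
        nlinarith
      nlinarith) h0' hX' hX0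
    simp only at h1
    rw [S.n0] at h1
    linarith
  have hD : D A B (527 / 100) := by
    apply cont F (δ := 1 / 50) (R := 18) (by linarith) (by norm_num) (by norm_num)
    intro X hX0 hX hDX
    obtain ⟨h1, -, -⟩ := key X hX0 hDX
    have h2 := hup X hX0 (by linarith) hDX
    have h3 := hN' X hDX
    refine ⟨?_, ?_⟩
    · have h4 : X ^ 2 ≤ (527 / 100) ^ 2 := pow_le_pow_left₀ hX0 hX.le 2
      have h5 : B * X ^ 2 ≤ 7 / 100 * (527 / 100) ^ 2 := by
        have := sq_nonneg X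
        calc B * X ^ 2 ≤ 7 / 100 * X ^ 2 := mul_le_mul_of_nonneg_right hB2 this
          _ ≤ _ := mul_le_mul_of_nonneg_left h4 (by norm_num)
      norm_num at h5
      linarith
    · rw [abs_of_nonneg h3]
      linarith
  have h1 := hcross A B (527 / 100) _ _ _ _ (F.sol A B _ hD) hA
    (fun t ht => hP t (F.dle A B _ t hD ht.1 ht.2)) (fun t ht => hN' t (F.dle A B _ t hD ht.1 ht.2))
  norm_num at h1
  linarith

end Pool.Agent.Helper79K9.TF
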