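import Pool.Agent.Helper79K9.TF.Left1

/-!
[LEFT2] `A` near `1` (helper94)
-/

set_option autoImplicit false

namespace Pool.Agent.Helper79K9.TF

open Set Filter Topology

namespace LeftL

/-- the solution with `A = 1` -/
theorem one_sol {B X : ℝ} {g p q n : ℝ → ℝ} (S : Sol 1 B X g p q n) :
    ∀ t ∈ Icc 0 X, g t = 1 - B * t ^ 2 / 2 ∧ p t = - (B * t) ∧ q t = -B ∧ n t = 0 := by
  have hgc : ContinuousOn g (Icc 0 X) := fun t ht => (S.dg t ht).continuousWithinAt
  obtain ⟨t0, ht0, hmin⟩ := isCompact_Icc.exists_isMinOn (nonempty_Icc.2 S.X0) hgc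
  have hδ : 0 < g t0 := S.pos t0 ht0
  set δ := g t0 with hδd
  have hg : ∀ t ∈ Icc 0 X, δ ≤ g t := fun t ht => hmin ht
  let u : ℝ → ℝ := fun t => g t - 1 + B * t ^ 2 / 2
  let v : ℝ → ℝ := fun t => p t + B * t
  let w : ℝ → ℝ := fun t => q t + B
  have hu : ∀ t ∈ Icc 0 X, HasDerivWithinAt u (v t) (Icc 0 X) t := by
    intro t ht
    have h1 := ((S.dg t ht).sub_const 1).add
      ((((hasDerivAt_pow 2 t).const_mul B).div_const 2).hasDerivWithinAt (s := Icc 0 X))
    have e : v t = p t + B * (((2 : ℕ) : ℝ) * t ^ (2 - 1)) / 2 := by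
      change p t + B * t = _
      push_cast
      rw [pow_one]
      ring
    rw [e]
    exact h1
  have hv : ∀ t ∈ Icc 0 X, HasDerivWithinAt v (w t) (Icc 0 X) t := by
    intro t ht
    have h1 := (S.dp t ht).add (((hasDerivAt_id t).const_mul B).hasDerivWithinAt (s := Icc 0 X))
    rw [mul_one] at h1
    exact h1
  have hw : ∀ t ∈ Icc 0 X, HasDerivWithinAt w (n t / g t) (Icc 0 X) t := fun t ht =>
    (S.dq t ht).add_const B
  have hn : ∀ t ∈ Icc 0 X, HasDerivWithinAt n (u t - t / 2 * v t) (Icc 0 X) t := by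
    intro t ht
    have h1 := S.dn t ht
    have e : u t - t / 2 * v t = g t - 1 - t / 2 * p t := by
      change (g t - 1 + B * t ^ 2 / 2) - t / 2 * (p t + B * t) = _
      ring
    rw [e]
    exact h1
  let C : ℝ := 2 + 1 / δ + X
  let E : ℝ → ℝ := fun t => u t ^ 2 + v t ^ 2 + w t ^ 2 + n t ^ 2
  have hE : ∀ t ∈ Icc 0 X, HasDerivWithinAt E (2 * u t * v t + 2 * v t * w t +
      2 * w t * (n t / g t) + 2 * n t * (u t - t / 2 * v t)) (Icc 0 X) t := by
    intro t ht
    have h1 := ((((hu t ht).pow 2).add ((hv t ht).pow 2)).add ((hw t ht).pow 2)).add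
      ((hn t ht).pow 2)
    have e : 2 * u t * v t + 2 * v t * w t + 2 * w t * (n t / g t) + 2 * n t * (u t - t / 2 * v t) =
        ((2 : ℕ) : ℝ) * u t ^ (2 - 1) * v t + ((2 : ℕ) : ℝ) * v t ^ (2 - 1) * w t +
        ((2 : ℕ) : ℝ) * w t ^ (2 - 1) * (n t / g t) +
        ((2 : ℕ) : ℝ) * n t ^ (2 - 1) * (u t - t / 2 * v t) := by
      push_cast
      simp only [pow_one]
    rw [e]
    exact h1
  have hbd : ∀ t ∈ Icc 0 X, 2 * u t * v t + 2 * v t * w t +
      2 * w t * (n t / g t) + 2 * n t * (u t - t / 2 * v t) ≤ C * E t := by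
    intro t ht
    have hg0 := S.pos t ht
    have h1 : 2 * w t * (n t / g t) ≤ (1 / δ) * (w t ^ 2 + n t ^ 2) := by
      have h2 : 2 * w t * (n t / g t) = (2 * w t * n t) * (1 / g t) := by ring
      have h3 : 1 / g t ≤ 1 / δ := one_div_le_one_div_of_le hδ (hg t ht)
      have h4 : 0 ≤ 1 / g t := by positivity
      have h5 : 2 * w t * n t ≤ w t ^ 2 + n t ^ 2 := by nlinarith [sq_nonneg (w t - n t)]
      rw [h2]
      calc (2 * w t * n t) * (1 / g t) ≤ (w t ^ 2 + n t ^ 2) * (1 / g t) :=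
            mul_le_mul_of_nonneg_right h5 h4
        _ ≤ (w t ^ 2 + n t ^ 2) * (1 / δ) := mul_le_mul_of_nonneg_left h3 (by positivity)
        _ = _ := mul_comm _ _
    have h2 : -(n t * t * v t) ≤ X * (n t ^ 2 + v t ^ 2) := by
      have h3 : -(n t * v t) ≤ n t ^ 2 + v t ^ 2 := by
        nlinarith [sq_nonneg (n t + v t), sq_nonneg (n t), sq_nonneg (v t)]
      calc -(n t * t * v t) = t * (-(n t * v t)) := by ring
        _ ≤ t * (n t ^ 2 + v t ^ 2) := mul_le_mul_of_nonneg_left h3 ht.1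
        _ ≤ X * (n t ^ 2 + v t ^ 2) := mul_le_mul_of_nonneg_right ht.2 (by positivity)
    have h3 : 0 ≤ (1 / δ) * (u t ^ 2 + v t ^ 2) := by positivity
    have h4 : 0 ≤ X * (u t ^ 2 + w t ^ 2) := mul_nonneg S.X0 (by positivity)
    change _ ≤ (2 + 1 / δ + X) * (u t ^ 2 + v t ^ 2 + w t ^ 2 + n t ^ 2)
    nlinarith [sq_nonneg (u t - v t), sq_nonneg (v t - w t), sq_nonneg (n t - u t),
      sq_nonneg (w t), sq_nonneg (n t)]
  -- Gronwall
  have hF : ∀ t ∈ Icc 0 X, HasDerivWithinAt (fun t => - (E t * Real.exp (-(C * t))))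
      (-((2 * u t * v t + 2 * v t * w t + 2 * w t * (n t / g t) + 2 * n t * (u t - t / 2 * v t)) *
        Real.exp (-(C * t)) + E t * (Real.exp (-(C * t)) * -C))) (Icc 0 X) t := by
    intro t ht
    have h1 : HasDerivWithinAt (fun t => Real.exp (-(C * t))) (Real.exp (-(C * t)) * -C) (Icc 0 X) t := by
      have h2 : HasDerivAt (fun t : ℝ => -(C * t)) (-C) t := by
        have h3 := ((hasDerivAt_id t).const_mul C).neg
        rw [mul_one] at h3
        exact h3
      exact h2.exp.hasDerivWithinAt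
    exact ((hE t ht).mul h1).neg
  have hmono := mono hF fun t ht => by
    have h1 := hbd t (Ioo_subset_Icc_self ht)
    have h2 := Real.exp_pos (-(C * t))
    nlinarith
  intro t ht
  have h0' : (0 : ℝ) ∈ Icc 0 X := ⟨le_rfl, S.X0⟩
  have h1 := hmono h0' ht ht.1
  have hE0 : E 0 = 0 := by
    change (g 0 - 1 + B * 0 ^ 2 / 2) ^ 2 + (p 0 + B * 0) ^ 2 + (q 0 + B) ^ 2 + n 0 ^ 2 = 0
    rw [S.g0, S.p0, S.q0, S.n0]
    ring
  have h2 : E t * Real.exp (-(C * t)) ≤ 0 := by
    have h3 : -(E 0 * Real.exp (-(C * 0))) ≤ -(E t * Real.exp (-(C * t))) := h1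
    rw [hE0, zero_mul, neg_zero] at h3
    linarith
  have h3 : E t ≤ 0 := by
    by_contra hcon
    push Not at hcon
    have := mul_pos hcon (Real.exp_pos (-(C * t)))
    linarith
  have h4 : u t ^ 2 + v t ^ 2 + w t ^ 2 + n t ^ 2 ≤ 0 := h3
  have e1 : u t = 0 := by
    have : u t ^ 2 = 0 := le_antisymm (by nlinarith [sq_nonneg (v t), sq_nonneg (w t), sq_nonneg (n t)]) (sq_nonneg _)
    exact pow_eq_zero_iff two_ne_zero |>.1 this
  have e2 : v t = 0 := by
    have : v t ^ 2 = 0 := le_antisymm (by nlinarith [sq_nonneg (u t), sq_nonneg (w t), sq_nonneg (n t)]) (sq_nonneg _)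
    exact pow_eq_zero_iff two_ne_zero |>.1 this
  have e3 : w t = 0 := by
    have : w t ^ 2 = 0 := le_antisymm (by nlinarith [sq_nonneg (u t), sq_nonneg (v t), sq_nonneg (n t)]) (sq_nonneg _)
    exact pow_eq_zero_iff two_ne_zero |>.1 this
  have e4 : n t = 0 := by
    have : n t ^ 2 = 0 := le_antisymm (by nlinarith [sq_nonneg (u t), sq_nonneg (v t), sq_nonneg (w t)]) (sq_nonneg _)
    exact pow_eq_zero_iff two_ne_zero |>.1 this
  have e1' : g t - 1 + B * t ^ 2 / 2 = 0 := e1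
  have e2' : p t + B * t = 0 := e2
  have e3' : q t + B = 0 := e3
  exact ⟨by linarith, by linarith, by linarith, e4⟩

end LeftL

open LeftL in
theorem left2 (hnott : S_NOTT) : S_LEFT2 := by
  intro G P Q N D F b c hb hbc
  have key : ∀ B, b ≤ B → (1, B) ∉ closure (Tset P D) := by
    intro B hB
    have hB0 : 0 < B := hb.trans_le hB
    set s0 : ℝ := Real.sqrt (2 / B) with hs0
    have hs0p : 0 < s0 := Real.sqrt_pos.2 (by positivity)
    have hs0q : s0 ^ 2 = 2 / B := Real.sq_sqrt (by positivity)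
    have hBs : B * s0 ^ 2 = 2 := by
      rw [hs0q]
      field_simp
    let γ : ℝ → ℝ := fun s => 1 - B * s ^ 2 / 2
    let φ : ℝ → ℝ := fun s => (B * s) ^ 3 - 12 * (s + 2 * γ s / (B * s)) * γ s
    have hφc : ContinuousAt φ s0 := by
      have h1 : ContinuousAt γ s0 := by
        change ContinuousAt (fun s : ℝ => 1 - B * s ^ 2 / 2) s0
        fun_prop
      have h2 : B * s0 ≠ 0 := by positivity
      change ContinuousAt (fun s : ℝ => (B * s) ^ 3 - 12 * (s + 2 * γ s / (B * s)) * γ s) s0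
      have h3 : ContinuousAt (fun s : ℝ => B * s) s0 := by fun_prop
      exact (h3.pow 3).sub ((continuousAt_const.mul (continuousAt_id.add
        ((continuousAt_const.mul h1).div h3 h2))).mul h1)
    have hφ0 : 0 < φ s0 := by
      have h1 : γ s0 = 0 := by
        change 1 - B * s0 ^ 2 / 2 = 0
        rw [hBs]
        norm_num
      change 0 < (B * s0) ^ 3 - 12 * (s0 + 2 * γ s0 / (B * s0)) * γ s0
      rw [h1, mul_zero, sub_zero]
      positivity
    have hev : ∀ᶠ s in 𝓝[<] s0, 0 < φ s ∧ 0 < s ∧ s < s0 := by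
      have h1 : ∀ᶠ s in 𝓝[<] s0, 0 < φ s :=
        (hφc.eventually (lt_mem_nhds hφ0)).filter_mono nhdsWithin_le_nhds
      have h2 : ∀ᶠ s in 𝓝[<] s0, 0 < s :=
        (lt_mem_nhds hs0p).filter_mono nhdsWithin_le_nhds
      filter_upwards [h1, h2, self_mem_nhdsWithin] with s h3 h4 h5
      exact ⟨h3, h4, h5⟩
    obtain ⟨s, hφs, hs, hss⟩ := hev.exists
    have hγs : 0 < γ s := by
      change 0 < 1 - B * s ^ 2 / 2
      have : s ^ 2 < s0 ^ 2 := pow_lt_pow_left₀ hss hs.le two_ne_zero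
      have := mul_lt_mul_of_pos_left this hB0
      linarith
    have hD : D 1 B s := by
      apply cont F (δ := γ s) (R := 0) one_pos hs.le hγs
      intro X hX0 hX hDX
      obtain ⟨h1, h2, h3, h4⟩ := one_sol (F.sol 1 B X hDX) X ⟨hX0, le_rfl⟩
      rw [h1, h4]
      refine ⟨?_, by simp⟩
      change 1 - B * s ^ 2 / 2 ≤ _
      have : X ^ 2 ≤ s ^ 2 := pow_le_pow_left₀ hX0 hX.le 2
      have := mul_le_mul_of_nonneg_left this hB0.le
      linarith
    have hsol := one_sol (F.sol 1 B s hD)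
    obtain ⟨h1, h2, h3, h4⟩ := hsol s ⟨hs.le, le_rfl⟩
    refine hnott G P Q N D F 1 B s (B * s) 0 one_pos hB0 hs hD (fun t ht0 ht => ?_) (by positivity)
      (by rw [h2]) le_rfl (by rw [h3]; linarith) ?_
    · rw [(hsol t ⟨ht0.le, ht⟩).2.1]
      have := mul_pos hB0 ht0
      linarith
    · rw [h1]
      have h5 : 0 < (B * s) ^ 3 - 12 * (s + 2 * (1 - B * s ^ 2 / 2) / (B * s)) * (1 - B * s ^ 2 / 2) :=
        hφs
      linarith
  have hK : IsCompact (({1} : Set ℝ) ×ˢ Icc b c) := isCompact_singleton.prod isCompact_Icc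
  have hdis : Disjoint (({1} : Set ℝ) ×ˢ Icc b c) (closure (Tset P D)) := by
    rw [Set.disjoint_left]
    rintro ⟨x, y⟩ ⟨hx, hy⟩ h
    rw [mem_singleton_iff] at hx
    simp only at hx hy
    rw [hx] at h
    exact key y hy.1 h
  obtain ⟨ε, hε, hdis2⟩ := hdis.exists_thickenings hK isClosed_closure
  have hmin : 0 < min ε 1 := lt_min hε one_pos
  refine ⟨1 + min ε 1 / 2, by linarith, ?_, fun B hB1 hB2 hcl => ?_⟩
  · have := min_le_right ε 1
    linarith
  · have h1 : ((1 + min ε 1 / 2, B) : ℝ × ℝ) ∈ Metric.thickening ε (({1} : Set ℝ) ×ˢ Icc b c) := by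
      rw [Metric.mem_thickening_iff]
      refine ⟨(1, B), ⟨rfl, hB1, hB2⟩, ?_⟩
      rw [Prod.dist_eq]
      simp only [dist_self]
      rw [Real.dist_eq, add_sub_cancel_left, abs_of_pos (by positivity)]
      apply max_lt _ hε
      have := min_le_left ε 1
      linarith
    exact Set.disjoint_left.1 hdis2 h1 (Metric.self_subset_thickening hε _ hcl)

end Pool.Agent.Helper79K9.TF
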