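import Pool.Agent.Helper79K9.TF.Cross

/-!
# Leaf LIM (helper30): the behaviour of a solution with `p ≤ 0` and `n ≥ 0`
-/

set_option autoImplicit false

namespace Pool.Agent.Helper79K9.TF
namespace LimL

open Set Filter Topology CrossL

/-- a bounded monotone function has a limit -/
theorem exists_lim {f : ℝ → ℝ} {T C : ℝ} (hT : 0 < T)
    (hf : ∀ a b, 0 ≤ a → a ≤ b → b < T → f a ≤ f b) (hC : ∀ t, 0 ≤ t → t < T → f t ≤ C) :
    ∃ L, L ≤ C ∧ Tendsto f (𝓝[<] T) (𝓝 L) := by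
  have h1 : (Ioo 0 T).Nonempty := ⟨T / 2, by positivity, by linarith⟩
  have h2 : MonotoneOn f (Ioo 0 T) := fun a ha b hb hab => hf a b ha.1.le hab hb.2
  have h3 : BddAbove (f '' Ioo 0 T) := ⟨C, by
    rintro _ ⟨t, ht, rfl⟩
    exact hC t ht.1.le ht.2⟩
  refine ⟨_, ?_, h2.tendsto_nhdsWithin_Ioo_left h1 h3⟩
  refine csSup_le (h1.image _) ?_
  rintro _ ⟨t, ht, rfl⟩
  exact hC t ht.1.le ht.2

variable {G P Q N : ℝ → ℝ → ℝ → ℝ} {D : ℝ → ℝ → ℝ → Prop} {A B : ℝ}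

theorem Pp (hT : (A, B) ∉ Tset P D) {X : ℝ} (hX : D A B X) : P A B X ≤ 0 := by
  by_contra h
  exact hT ⟨X, hX, not_le.1 h⟩

theorem Nn (hN : (A, B) ∉ Nset N D) {X : ℝ} (hX : D A B X) : 0 ≤ N A B X := by
  by_contra h
  exact hN ⟨X, hX, not_le.1 h⟩

theorem Ppi (hF : Flow G P Q N D) (hT : (A, B) ∉ Tset P D) {X : ℝ} (hX : D A B X) :
    ∀ t ∈ Icc 0 X, P A B t ≤ 0 := fun _ ht => Pp hT (hF.dle A B X _ hX ht.1 ht.2)

theorem Nni (hF : Flow G P Q N D) (hN : (A, B) ∉ Nset N D) {X : ℝ} (hX : D A B X) :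
    ∀ t ∈ Icc 0 X, 0 ≤ N A B t := fun _ ht => Nn hN (hF.dle A B X _ hX ht.1 ht.2)

/-- the domain is `[0, T)` -/
theorem domain (hcr : S_CROSS) (hF : Flow G P Q N D) (hA : 1 < A) (hT : (A, B) ∉ Tset P D)
    (hN : (A, B) ∉ Nset N D) : ∃ T, 0 < T ∧ ∀ X, D A B X ↔ 0 ≤ X ∧ X < T := by
  have hb : ∀ X, D A B X → X ≤ 384 * A + 1 := by
    intro X hX
    have h := hF.sol A B X hX
    have h1 := hcr A B X _ _ _ _ h hA (Ppi hF hT hX) (Nni hF hN hX)
    have h0 := h.X0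
    by_contra hc
    have hc := not_le.1 hc
    have h2 : 1 < X := by nlinarith
    have h3 : X ≤ X ^ 4 := le_self_pow₀ h2.le (by norm_num)
    linarith
  have h0 := hF.dom0 A B (by linarith)
  set s := {X | D A B X} with hs
  have hbdd : BddAbove s := ⟨384 * A + 1, hb⟩
  have hne : s.Nonempty := ⟨0, h0⟩
  obtain ⟨Y, hY0, hY⟩ := hF.ext A B 0 h0
  have hT0 : 0 < sSup s := hY0.trans_le (le_csSup hbdd hY)
  refine ⟨sSup s, hT0, fun X => ⟨fun hX => ⟨(hF.sol A B X hX).X0, ?_⟩, fun hX => ?_⟩⟩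
  · obtain ⟨Z, hZ0, hZ⟩ := hF.ext A B X hX
    exact hZ0.trans_le (le_csSup hbdd hZ)
  · obtain ⟨Z, hZ, hXZ⟩ := exists_lt_of_lt_csSup hne hX.2
    exact hF.dle A B Z X hZ hX.1 hXZ.le

/-- the product of `g` and `q` -/
theorem gq_le {X : ℝ} {g p q n : ℝ → ℝ} (h : Sol A B X g p q n) (hp : ∀ t ∈ Icc 0 X, p t ≤ 0)
    (hn : ∀ t ∈ Icc 0 X, 0 ≤ n t) {M : ℝ} (hM : ∀ t ∈ Icc 0 X, n t ≤ M) {a b : ℝ} (ha : 0 ≤ a)
    (hab : a ≤ b) (hb : b ≤ X) : g b * q b ≤ g b * q a + M * (b - a) := by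
  have hd : ∀ t ∈ Icc 0 X, HasDerivWithinAt (fun t => g b * q t - M * t)
      (g b * (n t / g t) - M) (Icc 0 X) t := by
    intro t ht
    have h1 := ((h.dq t ht).const_mul (g b)).sub
      ((hasDerivWithinAt_id t (Icc 0 X)).const_mul M)
    refine h1.congr_deriv ?_
    ring
  have h1 := anti hd ha hab hb fun t ht0 ht1 => by
    have ht : t ∈ Icc 0 X := ⟨ha.trans ht0.le, ht1.le.trans hb⟩
    have h2 := h.pos t ht
    have h3 := g_anti h hp ht.1 ht1.le hb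
    have h4 : g b * (n t / g t) ≤ n t := by
      rw [mul_div_assoc', div_le_iff₀ h2, mul_comm]
      exact mul_le_mul_of_nonneg_left h3 (hn t ht)
    have := hM t ht
    linarith
  linarith

end LimL

open Set Filter Topology CrossL LimL in
theorem lim (hcr : S_CROSS) : S_LIM := by
  intro G P Q N D hF A B hA hB hT hN
  obtain ⟨T, hT0, hdom⟩ := domain hcr hF hA hT hN
  have hS : ∀ X, 0 ≤ X → X < T → Sol A B X (G A B) (P A B) (Q A B) (N A B) := fun X h0 h1 =>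
    hF.sol A B X ((hdom X).2 ⟨h0, h1⟩)
  have hp : ∀ X, 0 ≤ X → X < T → ∀ t ∈ Icc 0 X, P A B t ≤ 0 := fun X h0 h1 =>
    Ppi hF hT ((hdom X).2 ⟨h0, h1⟩)
  have hn : ∀ X, 0 ≤ X → X < T → ∀ t ∈ Icc 0 X, 0 ≤ N A B t := fun X h0 h1 =>
    Nni hF hN ((hdom X).2 ⟨h0, h1⟩)
  have hA0 : 0 < A := by linarith
  have hg : ∀ t, 0 ≤ t → t < T → 0 < G A B t := fun t h0 h1 => (hS t h0 h1).pos t ⟨h0, le_rfl⟩
  have hp' : ∀ t, 0 ≤ t → t < T → P A B t ≤ 0 := fun t h0 h1 => hp t h0 h1 t ⟨h0, le_rfl⟩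
  have hn' : ∀ t, 0 ≤ t → t < T → 0 ≤ N A B t := fun t h0 h1 => hn t h0 h1 t ⟨h0, le_rfl⟩
  have hnM : ∀ t, 0 ≤ t → t < T → N A B t ≤ 3 / 2 * A * T := fun t h0 h1 => by
    have h2 := n_le (hS t h0 h1) (hp t h0 h1) ⟨h0, le_rfl⟩
    have : 3 / 2 * A * t ≤ 3 / 2 * A * T := by nlinarith
    linarith
  have hgA : ∀ t, 0 ≤ t → t < T → G A B t ≤ A := fun t h0 h1 =>
    g_le (hS t h0 h1) (hp t h0 h1) ⟨h0, le_rfl⟩
  -- the limit of `g`
  have hgl : Tendsto (G A B) (𝓝[<] T) (𝓝 0) := by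
    obtain ⟨L, hL0, hL⟩ := exists_lim (f := fun t => -G A B t) (C := 0) hT0
      (fun a b h0 hab hb => neg_le_neg (g_anti (hS b (h0.trans hab) hb) (hp b (h0.trans hab) hb)
        h0 hab le_rfl)) (fun t h0 h1 => by have := hg t h0 h1; linarith)
    have hL' : Tendsto (G A B) (𝓝[<] T) (𝓝 (-L)) := by
      have := hL.neg
      simpa using this
    rcases hL0.eq_or_lt with h | h
    · rw [h, neg_zero] at hL'
      exact hL'
    · exfalso
      have hge : ∀ t, 0 ≤ t → t < T → -L ≤ G A B t := by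
        intro t h0 h1
        refine le_of_tendsto hL' ?_
        filter_upwards [Ioo_mem_nhdsLT h1] with s hs
        exact g_anti (hS s (h0.trans hs.1.le) hs.2) (hp s (h0.trans hs.1.le) hs.2) h0 hs.1.le le_rfl
      have h2 := hF.lim A B T (-L) (3 / 2 * A * T) hT0 (fun X h0 h1 => (hdom X).2 ⟨h0, h1⟩)
        (by linarith) (fun t h0 h1 => ⟨hge t h0 h1, by
          rw [abs_of_nonneg (hn' t h0 h1)]
          exact hnM t h0 h1⟩)
      exact lt_irrefl _ ((hdom T).1 h2).2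
  -- the limit of `p`
  have hdp : ∀ X, 0 ≤ X → X < T → ∀ t ∈ Icc 0 X,
      HasDerivWithinAt (fun t => P A B t + B * t) (Q A B t + B) (Icc 0 X) t := by
    intro X h0 h1 t ht
    refine (((hS X h0 h1).dp t ht).add ((hasDerivWithinAt_id t (Icc 0 X)).const_mul
      B)).congr_deriv ?_
    ring
  have hqB : ∀ t, 0 ≤ t → t < T → -B ≤ Q A B t := fun t h0 h1 => by
    have := q_mono (hS t h0 h1) (hn t h0 h1) le_rfl h0 le_rfl
    rwa [(hS t h0 h1).q0] at this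
  obtain ⟨L, hL0, hL⟩ := exists_lim (f := fun t => P A B t + B * t) (C := B * T) hT0
    (fun a b h0 hab hb => mono (hdp b (h0.trans hab) hb) h0 hab le_rfl fun t h2 h3 => by
      have := hqB t (h0.trans h2.le) (h3.trans hb)
      linarith)
    (fun t h0 h1 => by
      have := hp' t h0 h1
      nlinarith)
  have hid : Tendsto (fun t : ℝ => t) (𝓝[<] T) (𝓝 T) := tendsto_id.mono_left nhdsWithin_le_nhds
  have hpl : Tendsto (P A B) (𝓝[<] T) (𝓝 (L - B * T)) := by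
    have := hL.sub (hid.const_mul B)
    simpa using this
  -- the limit of `n`
  have hdn : ∀ X, 0 ≤ X → X < T → ∀ t ∈ Icc 0 X,
      HasDerivWithinAt (fun t => N A B t + t / 2 * G A B t + t) (3 / 2 * G A B t) (Icc 0 X) t := by
    intro X h0 h1 t ht
    refine ((((hS X h0 h1).dn t ht).add (((hasDerivWithinAt_id t (Icc 0 X)).div_const 2).mul
      ((hS X h0 h1).dg t ht))).add (hasDerivWithinAt_id t (Icc 0 X))).congr_deriv ?_
    simp only [id]
    ring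
  obtain ⟨L', hL0', hL'⟩ := exists_lim (f := fun t => N A B t + t / 2 * G A B t + t)
    (C := 3 / 2 * A * T + T / 2 * A + T) hT0
    (fun a b h0 hab hb => mono (hdn b (h0.trans hab) hb) h0 hab le_rfl fun t h2 h3 => by
      have := hg t (h0.trans h2.le) (h3.trans hb)
      linarith)
    (fun t h0 h1 => by
      have h2 := hnM t h0 h1
      have h3 : t / 2 * G A B t ≤ T / 2 * A :=
        mul_le_mul (by linarith) (hgA t h0 h1) (hg t h0 h1).le (by linarith)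
      linarith)
  have hnl : Tendsto (N A B) (𝓝[<] T) (𝓝 (L' - T)) := by
    have h1 := (hL'.sub ((hid.div_const 2).mul hgl)).sub hid
    rw [mul_zero, sub_zero] at h1
    refine h1.congr fun t => ?_
    ring
  have hev : ∀ᶠ t in 𝓝[<] T, 0 ≤ t ∧ t < T := by
    filter_upwards [Ioo_mem_nhdsLT hT0] with t ht
    exact ⟨ht.1.le, ht.2⟩
  refine ⟨T, L - B * T, L' - T, hT0, hdom, hgl, hpl, hnl, ?_, ?_, ?_, ?_⟩
  · exact le_of_tendsto hpl (hev.mono fun t ht => hp' t ht.1 ht.2)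
  · exact ge_of_tendsto hnl (hev.mono fun t ht => hn' t ht.1 ht.2)
  · intro t h0 h1
    have h2 : 0 ≤ (t + T) / 2 := by linarith
    have h3 : (t + T) / 2 < T := by linarith
    exact p_neg (hS _ h2 h3) hB (hp _ h2 h3) (hn _ h2 h3) h0 (by linarith)
  · -- the product
    rw [Metric.tendsto_nhds]
    intro ε hε
    set M := 3 / 2 * A * T with hM
    have hM0 : 0 < M := by positivity
    obtain ⟨s, hs0, hs1, hs2⟩ : ∃ s, 0 ≤ s ∧ s < T ∧ M * (T - s) ≤ ε / 4 := by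
      refine ⟨max 0 (T - ε / 4 / M), le_max_left _ _, max_lt hT0 (by
        have : 0 < ε / 4 / M := by positivity
        linarith), ?_⟩
      have h1 : T - max 0 (T - ε / 4 / M) ≤ ε / 4 / M := by
        have := le_max_right 0 (T - ε / 4 / M)
        linarith
      calc M * (T - max 0 (T - ε / 4 / M)) ≤ M * (ε / 4 / M) := mul_le_mul_of_nonneg_left h1 hM0.le
        _ = ε / 4 := by field_simp
    have h1 : Tendsto (fun t => G A B t * |Q A B s|) (𝓝[<] T) (𝓝 0) := by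
      have := hgl.mul_const (|Q A B s|)
      rwa [zero_mul] at this
    have h2 := h1.eventually (gt_mem_nhds (show (0 : ℝ) < ε / 4 by positivity))
    filter_upwards [h2, Ioo_mem_nhdsLT hs1] with t ht1 ht2
    have ht0 : 0 ≤ t := hs0.trans ht2.1.le
    have h3 := gq_le (hS t ht0 ht2.2) (hp t ht0 ht2.2) (hn t ht0 ht2.2) (M := M)
      (fun u hu => hnM u hu.1 (hu.2.trans_lt ht2.2)) hs0 ht2.1.le le_rfl
    have hgt := hg t ht0 ht2.2
    have h4 : G A B t * Q A B s ≤ G A B t * |Q A B s| :=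
      mul_le_mul_of_nonneg_left (le_abs_self _) hgt.le
    have h5 : M * (t - s) ≤ M * (T - s) := mul_le_mul_of_nonneg_left (by linarith [ht2.2]) hM0.le
    have h6 : 0 ≤ G A B t * max (Q A B t) 0 := mul_nonneg hgt.le (le_max_right _ _)
    rw [Real.dist_eq, sub_zero, abs_of_nonneg h6]
    rcases le_total (Q A B t) 0 with h7 | h7
    · rw [max_eq_right h7, mul_zero]
      exact hε
    · rw [max_eq_left h7]
      linarith

end Pool.Agent.Helper79K9.TF
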