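import Pool.Agent.Helper79K9.TF.Defs

/-!
The two-parameter shooting argument: assembly
-/

set_option autoImplicit false

namespace Pool.Agent.Helper79K9.TF

open Set Filter Topology

theorem main (hbase : S_BASE) (hopen : S_OPEN) (hbot : S_BOT) (htop : S_TOP) (hplan : S_PLAN)
    (hl1 : S_LEFT1) (hl2 : S_LEFT2) (hr : S_RIGHT) (hk1 : S_KEY1) (hk2 : S_KEY2) (hreg : S_REG) :
    ∃ (ξ₀ : ℝ) (g : ℝ → ℝ), Adm ξ₀ g := by
  obtain ⟨G, P, Q, N, D, hF⟩ := hbase
  obtain ⟨A₁, h1, h2, hA₁⟩ := hl2 G P Q N D hF (7 / 100) 120 (by norm_num) (by norm_num)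
  obtain ⟨hU, hV⟩ := hopen G P Q N D hF
  obtain ⟨z, hz1, hz2, hz3, hz4, hzc, hzU, hzV, hzn⟩ := hplan (Tset P D) (Nset N D) A₁ 20 0 120
    (by linarith) (by norm_num) hU hV (fun x hx _ => hbot G P Q N D hF x (by linarith))
    (by
      intro x hx1 hx2
      have hO : IsOpen {w : ℝ × ℝ | 1 < w.1 ∧ 0 < w.2 ∧ 600 * w.1 < w.2 ^ 2} := by
        refine (isOpen_lt continuous_const continuous_fst).inter
          ((isOpen_lt continuous_const continuous_snd).inter
            (isOpen_lt (continuous_const.mul continuous_fst) (continuous_snd.pow 2)))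
      intro hc
      obtain ⟨w, hw1, hw2⟩ := mem_closure_iff.1 hc _ hO
        ⟨by show 1 < x; linarith, by show (0 : ℝ) < 120; norm_num,
          by show 600 * x < (120 : ℝ) ^ 2; nlinarith⟩
      obtain ⟨X, hD, hP⟩ := hw2
      have := htop w.1 w.2 X _ _ _ _ (hF.sol w.1 w.2 X hD) hw1.1.le hw1.2.1 hw1.2.2
      linarith)
    (by
      intro y hy1 hy2 hc hn
      rcases hy1.eq_or_lt with h | h
      · rw [← h] at hn
        exact absurd (hbot G P Q N D hF A₁ h1) hn
      · rcases le_or_gt y (7 / 100) with h' | h'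
        · rcases hl1 G P Q N D hF A₁ y h1 h2.le h h' with h3 | h3
          · exact absurd h3 hn
          · exact h3
        · exact absurd hc (hA₁ y h'.le hy2))
    (fun y _ _ hc hn => hr G P Q N D hF y hc hn)
  obtain ⟨A, B⟩ := z
  simp only at hz1 hz2 hz3 hz4
  have hA : 1 < A := by linarith
  have hB : 0 < B := by
    rcases hz3.eq_or_lt with h | h
    · rw [← h] at hzU
      exact absurd (hbot G P Q N D hF A hA) hzU
    · exact h
  obtain ⟨T, n₁, hT, hdom, hg, hp, hn, hn1⟩ := hk1 G P Q N D hF A B hA hB hzU hzV hzc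
  have hn0 : n₁ = 0 := by
    by_contra hne
    have hpos : 0 < n₁ := lt_of_le_of_ne hn1 (Ne.symm hne)
    have hev := hk2 G P Q N D hF A B T n₁ hA hB hzU hzV hT hdom hp hn hpos
    obtain ⟨w, hw1, hw2, hw3⟩ := mem_closure_iff_nhds.1 hzn _ hev
    exact hw1 hw3 hw2
  rw [hn0] at hn
  exact ⟨T, G A B, hreg G P Q N D hF A B T hT hdom hg hp hn⟩

end Pool.Agent.Helper79K9.TF
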