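import Pool.Agent.Helper79K9.TF.Crit

/-!
# Zero contact angle profiles: the criterion and the closure of the turning parameters
-/

set_option autoImplicit false

namespace Pool.Agent.Helper79K9.TF

open Set Filter Topology

namespace NottL

/-- the criterion is stable -/
theorem stable {A γ p₀ q₀ s : ℝ} (hp₀ : 0 < p₀)
    (h : 4 * q₀ * γ * p₀ + 12 * A * (s + 2 * γ / p₀) * γ < p₀ ^ 3) :
    ∃ e : ℝ, 0 < e ∧ ∀ A' γ' p' q' : ℝ, |A' - A| < e → |γ' - γ| < e → |p' - p₀| < e →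
      |q' - q₀| < e → 4 * q' * γ' * p' + 12 * A' * (s + 2 * γ' / p') * γ' < p' ^ 3 := by
  have hc : ContinuousAt (fun z : ℝ × ℝ × ℝ × ℝ => z.2.2.1 ^ 3 - (4 * z.2.2.2 * z.2.1 * z.2.2.1 +
      12 * z.1 * (s + 2 * z.2.1 / z.2.2.1) * z.2.1)) (A, γ, p₀, q₀) := by
    have hne : ((A, γ, p₀, q₀) : ℝ × ℝ × ℝ × ℝ).2.2.1 ≠ 0 := hp₀.ne'
    have h1 : ContinuousAt (fun z : ℝ × ℝ × ℝ × ℝ => 2 * z.2.1 / z.2.2.1) (A, γ, p₀, q₀) :=
      ContinuousAt.div (by fun_prop) (by fun_prop) hne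
    have h2 : ContinuousAt (fun z : ℝ × ℝ × ℝ × ℝ => 12 * z.1 * (s + 2 * z.2.1 / z.2.2.1) *
      z.2.1) (A, γ, p₀, q₀) :=
      ((continuousAt_const.mul (by fun_prop)).mul (continuousAt_const.add h1)).mul (by fun_prop)
    have h3 : ContinuousAt (fun z : ℝ × ℝ × ℝ × ℝ => z.2.2.1 ^ 3) (A, γ, p₀, q₀) := by fun_prop
    have h4 : ContinuousAt (fun z : ℝ × ℝ × ℝ × ℝ => 4 * z.2.2.2 * z.2.1 * z.2.2.1)
      (A, γ, p₀, q₀) := by fun_prop
    exact h3.sub (h4.add h2)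
  have hpos : (0 : ℝ) < (fun z : ℝ × ℝ × ℝ × ℝ => z.2.2.1 ^ 3 - (4 * z.2.2.2 * z.2.1 * z.2.2.1 +
      12 * z.1 * (s + 2 * z.2.1 / z.2.2.1) * z.2.1)) (A, γ, p₀, q₀) := by
    show 0 < p₀ ^ 3 - (4 * q₀ * γ * p₀ + 12 * A * (s + 2 * γ / p₀) * γ)
    linarith
  obtain ⟨e, he, hball⟩ := Metric.eventually_nhds_iff.1 (hc.eventually (lt_mem_nhds hpos))
  refine ⟨e, he, fun A' γ' p' q' h1 h2 h3 h4 => ?_⟩
  have := hball (y := (A', γ', p', q')) (by
    simp only [Prod.dist_eq, Real.dist_eq]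
    exact max_lt h1 (max_lt h2 (max_lt h3 h4)))
  simp only at this
  linarith

end NottL

open CritL NottL in
theorem nott : S_NOTT := by
  intro G P Q N D hF A B s p₀ q₀ hA hB hs hD hP hp₀ hPs hq₀ hQs hcrit
  obtain ⟨e, he, hst⟩ := stable hp₀ hcrit
  have hsol := hF.sol A B s hD
  -- `Q` is negative near `0`
  have hQc : ContinuousOn (Q A B) (Icc 0 s) := fun t ht => (hsol.dq t ht).continuousWithinAt
  have hPc : ContinuousOn (P A B) (Icc 0 s) := fun t ht => (hsol.dp t ht).continuousWithinAt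
  obtain ⟨t₀, ht₀, ht₀s, hQt⟩ : ∃ t₀, 0 < t₀ ∧ t₀ ≤ s ∧ ∀ t ∈ Icc 0 t₀, Q A B t ≤ -(B / 2) := by
    have h0 : Q A B 0 < -(B / 2) := by rw [hsol.q0]; linarith
    have hev : ∀ᶠ t in 𝓝[Icc 0 s] 0, Q A B t < -(B / 2) :=
      (hQc 0 ⟨le_rfl, hs.le⟩).eventually (gt_mem_nhds h0)
    obtain ⟨r, hr, hball⟩ := Metric.mem_nhdsWithin_iff.1 hev
    refine ⟨min (r / 2) s, lt_min (half_pos hr) hs, min_le_right _ _, fun t ht => ?_⟩
    refine le_of_lt (hball ⟨?_, ht.1, ht.2.trans (min_le_right _ _)⟩)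
    rw [Metric.mem_ball, Real.dist_eq, sub_zero, abs_of_nonneg ht.1]
    have := ht.2.trans (min_le_left _ _)
    linarith
  obtain ⟨c, hc, hPt⟩ : ∃ c, 0 < c ∧ ∀ t ∈ Icc t₀ s, P A B t ≤ -c := by
    obtain ⟨y, hy, hmax⟩ := (isCompact_Icc (a := t₀) (b := s)).exists_isMaxOn ⟨t₀, le_rfl, ht₀s⟩
      (hPc.mono (Icc_subset_Icc_left ht₀.le))
    refine ⟨-(P A B y), by linarith [hP y (ht₀.trans_le hy.1) hy.2], fun t ht => ?_⟩
    have : P A B t ≤ P A B y := hmax ht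
    linarith
  set ε : ℝ := min (min (e / 2) (p₀ / 2)) (min (B / 4) (c / 2)) with hε
  have hεpos : 0 < ε := by
    rw [hε]; positivity
  have hε1 : ε ≤ e / 2 := (min_le_left _ _).trans (min_le_left _ _)
  have hε2 : ε ≤ p₀ / 2 := (min_le_left _ _).trans (min_le_right _ _)
  have hε3 : ε ≤ B / 4 := (min_le_right _ _).trans (min_le_left _ _)
  have hε4 : ε ≤ c / 2 := (min_le_right _ _).trans (min_le_right _ _)
  obtain ⟨η, hη, hcont⟩ := hF.cont A B s hD ε hεpos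
  intro hmem
  rw [Metric.mem_closure_iff] at hmem
  obtain ⟨⟨A', B'⟩, ⟨X, hDX, hPX⟩, hdist⟩ := hmem (min η (min e A)) (lt_min hη (lt_min he hA))
  simp only at hDX hPX
  rw [Prod.dist_eq, max_lt_iff, Real.dist_eq, Real.dist_eq, abs_sub_comm A, abs_sub_comm B]
    at hdist
  obtain ⟨hdA, hdB⟩ := hdist
  obtain ⟨hDs', hcl⟩ := hcont A' B' (hdA.trans_le (min_le_left _ _))
    (hdB.trans_le (min_le_left _ _))
  have hA' : 0 < A' := by
    have h1 : |A' - A| < A := hdA.trans_le ((min_le_right _ _).trans (min_le_right _ _))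
    have := (abs_lt.1 h1).1
    linarith
  have hsol' := hF.sol A' B' s hDs'
  have hQ' : ∀ t ∈ Icc 0 t₀, Q A' B' t ≤ -(B / 4) := by
    intro t ht
    have h1 := (abs_lt.1 (hcl t ⟨ht.1, ht.2.trans ht₀s⟩).2.2.1).2
    have h2 := hQt t ht
    linarith
  have hP' : ∀ t ∈ Icc 0 s, P A' B' t ≤ 0 ∧ (0 < t → P A' B' t < 0) := by
    intro t ht
    rcases le_total t t₀ with h1 | h1
    · have hsub : Icc 0 t ⊆ Icc 0 s := Icc_subset_Icc_right ht.2
      have h2 := incr_le (f := P A' B') (f' := Q A' B') (c := -(B / 4)) ht.1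
        (fun y hy => (hsol'.dp y (hsub hy)).mono hsub) (fun y hy => hQ' y ⟨hy.1, hy.2.trans h1⟩)
      rw [hsol'.p0] at h2
      have h3 : 0 ≤ B / 4 * t := mul_nonneg (by linarith) ht.1
      refine ⟨by linarith, fun h4 => ?_⟩
      have : 0 < B / 4 * t := by positivity
      linarith
    · have h2 := (abs_lt.1 (hcl t ht).2.1).2
      have h3 := hPt t ⟨h1, ht.2⟩
      constructor
      · linarith
      · intro _; linarith
  rcases le_total X s with hXs | hsX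
  · have hX0 := (hF.sol A' B' X hDX).X0
    have := (hP' X ⟨hX0, hXs⟩).1
    linarith
  · have hsolX := hF.sol A' B' X hDX
    have hs4 := hcl s ⟨hs.le, le_rfl⟩
    have hcr := crit A' B' X s (G A' B' s) (p₀ - ε) (q₀ + ε) _ _ _ _ hsolX hA' hs.le hsX
      (fun t ht => (hP' t ht).1) rfl (by linarith) (by
        have := (abs_lt.1 hs4.2.1).2
        linarith) (by linarith) (by
        have := (abs_lt.1 hs4.2.2.1).2
        linarith) (hst A' (G A' B' s) (p₀ - ε) (q₀ + ε)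
          (hdA.trans_le ((min_le_right _ _).trans (min_le_left _ _)))
          (by linarith [hs4.1]) (by
            rw [show p₀ - ε - p₀ = -ε by ring, abs_neg, abs_of_pos hεpos]; linarith) (by
            rw [show q₀ + ε - q₀ = ε by ring, abs_of_pos hεpos]; linarith))
    have := hcr X ⟨hsX, le_rfl⟩
    linarith

end Pool.Agent.Helper79K9.TF
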