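import Pool.Agent.Helper79K9.TF.Defs
import Pool.Agent.H333.Dim

/-!
[PLAN]: a planar separation lemma from the Poincaré-Miranda theorem
-/

set_option autoImplicit false

namespace Pool.Agent.Helper79K9.TF

open Set Filter Topology Metric

namespace PlanL

/-- clamp to `[0, 1]` -/
noncomputable def c01 (s : ℝ) : ℝ := max 0 (min s 1)

theorem c01_cont : Continuous c01 := by unfold c01; fun_prop

theorem c01_mem (s : ℝ) : 0 ≤ c01 s ∧ c01 s ≤ 1 := by
  unfold c01
  exact ⟨le_max_left _ _, max_le zero_le_one (min_le_right _ _)⟩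

theorem c01_zero : c01 0 = 0 := by unfold c01; norm_num

theorem c01_one : c01 1 = 1 := by unfold c01; norm_num

/-- the parametrization of the rectangle -/
noncomputable def zz (a b c d : ℝ) (p : ℝ × ℝ) : ℝ × ℝ :=
  (a + (b - a) * c01 p.1, c + (d - c) * c01 p.2)

theorem zz_cont (a b c d : ℝ) : Continuous (zz a b c d) := by
  unfold zz
  have := c01_cont
  fun_prop

theorem zz_mem {a b c d : ℝ} (h1 : a < b) (h2 : c < d) (p : ℝ × ℝ) :
    zz a b c d p ∈ Icc a b ×ˢ Icc c d := by
  unfold zz
  have h3 := c01_mem p.1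
  have h4 := c01_mem p.2
  refine ⟨⟨?_, ?_⟩, ⟨?_, ?_⟩⟩
  · simp only
    nlinarith
  · simp only
    nlinarith
  · simp only
    nlinarith
  · simp only
    nlinarith

end PlanL

open PlanL in
theorem plan : S_PLAN := by
  intro U V a b c d hab hcd hU hV hbot htop hleft hright
  by_contra hcon
  push Not at hcon
  set R : Set (ℝ × ℝ) := Icc a b ×ˢ Icc c d with hR
  have hRc : IsClosed R := isClosed_Icc.prod isClosed_Icc
  set S : Set (ℝ × ℝ) := R ∩ (closure U ∩ Uᶜ) with hS
  have hSc : IsClosed S := hRc.inter (isClosed_closure.inter hU.isClosed_compl)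
  set S1 : Set (ℝ × ℝ) := S ∩ V with hS1
  set S2 : Set (ℝ × ℝ) := S ∩ Vᶜ with hS2
  have hS2c : IsClosed S2 := hSc.inter hV.isClosed_compl
  have hS1c : IsClosed S1 := by
    rw [← closure_subset_iff_isClosed]
    intro z hz
    have hzS : z ∈ S := by
      have := closure_mono (inter_subset_left : S1 ⊆ S) hz
      rwa [hSc.closure_eq] at this
    refine ⟨hzS, ?_⟩
    by_contra hzV
    refine hcon z hzS.1.1.1 hzS.1.1.2 hzS.1.2.1 hzS.1.2.2 hzS.2.1 hzS.2.2 hzV ?_
    refine closure_mono ?_ hz
    intro w hw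
    exact ⟨hw.2, hw.1.2.2⟩
  set K1 : Set (ℝ × ℝ) := S1 ∪ {a} ×ˢ Icc c d with hK1
  set K2 : Set (ℝ × ℝ) := S2 ∪ {b} ×ˢ Icc c d with hK2
  have hK1c : IsClosed K1 := hS1c.union (isClosed_singleton.prod isClosed_Icc)
  have hK2c : IsClosed K2 := hS2c.union (isClosed_singleton.prod isClosed_Icc)
  have hcd' : c ∈ Icc c d := ⟨le_rfl, hcd.le⟩
  have hK1n : K1.Nonempty := ⟨(a, c), Or.inr ⟨rfl, hcd'⟩⟩
  have hK2n : K2.Nonempty := ⟨(b, c), Or.inr ⟨rfl, hcd'⟩⟩
  have hLS : ∀ y ∈ Icc c d, (a, y) ∉ K2 := by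
    rintro y hy (h | h)
    · exact h.2 (hleft y hy.1 hy.2 h.1.2.1 h.1.2.2)
    · have : a = b := h.1
      exact hab.ne this
  have hRS : ∀ y ∈ Icc c d, (b, y) ∉ K1 := by
    rintro y hy (h | h)
    · exact hright y hy.1 hy.2 h.1.2.1 h.1.2.2 h.2
    · have : b = a := h.1
      exact hab.ne' this
  have hUn : U.Nonempty := ⟨(a, c), hbot a le_rfl hab.le⟩
  have hUcn : (Uᶜ).Nonempty := ⟨(a, d), fun h => htop a le_rfl hab.le (subset_closure h)⟩
  let F : ℝ × ℝ → ℂ := fun p =>
    ⟨infDist (zz a b c d p) K1 - infDist (zz a b c d p) K2,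
      infDist (zz a b c d p) U - infDist (zz a b c d p) Uᶜ⟩
  have hFc : Continuous F := by
    have e1 : Continuous fun p : ℝ × ℝ => infDist (zz a b c d p) K1 - infDist (zz a b c d p) K2 :=
      ((continuous_infDist_pt K1).comp (zz_cont a b c d)).sub
        ((continuous_infDist_pt K2).comp (zz_cont a b c d))
    have e2 : Continuous fun p : ℝ × ℝ => infDist (zz a b c d p) U - infDist (zz a b c d p) Uᶜ :=
      ((continuous_infDist_pt U).comp (zz_cont a b c d)).sub
        ((continuous_infDist_pt Uᶜ).comp (zz_cont a b c d))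
    have e3 : F = fun p => ((infDist (zz a b c d p) K1 - infDist (zz a b c d p) K2 : ℝ) : ℂ) +
        ((infDist (zz a b c d p) U - infDist (zz a b c d p) Uᶜ : ℝ) : ℂ) * Complex.I := by
      funext p
      apply Complex.ext
      · simp [F]
      · simp [F]
    rw [e3]
    exact (Complex.continuous_ofReal.comp e1).add
      ((Complex.continuous_ofReal.comp e2).mul continuous_const)
  have hz1 : ∀ s : ℝ, (zz a b c d (0, s)).1 = a := by
    intro s
    simp [zz, c01_zero]
  have hz2 : ∀ s : ℝ, (zz a b c d (1, s)).1 = b := by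
    intro s
    simp [zz, c01_one]
  have hz3 : ∀ s : ℝ, (zz a b c d (s, 0)).2 = c := by
    intro s
    simp [zz, c01_zero]
  have hz4 : ∀ s : ℝ, (zz a b c d (s, 1)).2 = d := by
    intro s
    simp [zz, c01_one]
  obtain ⟨p, hp⟩ := Pool.Agent.H333.miranda F hFc
    (by
      intro s _
      have hm := zz_mem hab hcd (0, s)
      have h1 : zz a b c d (0, s) = (a, (zz a b c d (0, s)).2) := Prod.ext (hz1 s) rfl
      have h2 : zz a b c d (0, s) ∈ K1 := Or.inr ⟨hz1 s, hm.2⟩
      have h3 : zz a b c d (0, s) ∉ K2 := by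
        rw [h1]
        exact hLS _ hm.2
      have h4 := infDist_zero_of_mem h2
      have h5 := (hK2c.notMem_iff_infDist_pos hK2n).1 h3
      show infDist (zz a b c d (0, s)) K1 - infDist (zz a b c d (0, s)) K2 < 0
      linarith)
    (by
      intro s _
      have hm := zz_mem hab hcd (1, s)
      have h1 : zz a b c d (1, s) = (b, (zz a b c d (1, s)).2) := Prod.ext (hz2 s) rfl
      have h2 : zz a b c d (1, s) ∈ K2 := Or.inr ⟨hz2 s, hm.2⟩
      have h3 : zz a b c d (1, s) ∉ K1 := by
        rw [h1]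
        exact hRS _ hm.2
      have h4 := infDist_zero_of_mem h2
      have h5 := (hK1c.notMem_iff_infDist_pos hK1n).1 h3
      show 0 < infDist (zz a b c d (1, s)) K1 - infDist (zz a b c d (1, s)) K2
      linarith)
    (by
      intro s _
      have hm := zz_mem hab hcd (s, 0)
      have h1 : zz a b c d (s, 0) = ((zz a b c d (s, 0)).1, c) := Prod.ext rfl (hz3 s)
      have h2 : zz a b c d (s, 0) ∈ U := by
        rw [h1]
        exact hbot _ hm.1.1 hm.1.2
      have h4 := infDist_zero_of_mem h2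
      have h5 := (hU.isClosed_compl.notMem_iff_infDist_pos hUcn).1 (fun h => h h2)
      show infDist (zz a b c d (s, 0)) U - infDist (zz a b c d (s, 0)) Uᶜ < 0
      linarith)
    (by
      intro s _
      have hm := zz_mem hab hcd (s, 1)
      have h1 : zz a b c d (s, 1) = ((zz a b c d (s, 1)).1, d) := Prod.ext rfl (hz4 s)
      have h2 : zz a b c d (s, 1) ∉ closure U := by
        rw [h1]
        exact htop _ hm.1.1 hm.1.2
      have h3 : zz a b c d (s, 1) ∈ Uᶜ := fun h => h2 (subset_closure h)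
      have h4 := infDist_zero_of_mem h3
      have h5 := (isClosed_closure.notMem_iff_infDist_pos hUn.closure).1 h2
      rw [infDist_closure] at h5
      show 0 < infDist (zz a b c d (s, 1)) U - infDist (zz a b c d (s, 1)) Uᶜ
      linarith)
  have hre : infDist (zz a b c d p) K1 - infDist (zz a b c d p) K2 = 0 := congrArg Complex.re hp
  have him : infDist (zz a b c d p) U - infDist (zz a b c d p) Uᶜ = 0 := congrArg Complex.im hp
  set z := zz a b c d p with hz
  have hzR : z ∈ R := zz_mem hab hcd p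
  have hzU : z ∉ U := by
    intro h
    have h4 := infDist_zero_of_mem h
    have h5 := (hU.isClosed_compl.notMem_iff_infDist_pos hUcn).1 (fun h' => h' h)
    linarith
  have hzcl : z ∈ closure U := by
    rw [mem_closure_iff_infDist_zero hUn]
    have h4 := infDist_zero_of_mem (show z ∈ Uᶜ from hzU)
    linarith
  have hzS : z ∈ S := ⟨hzR, hzcl, hzU⟩
  by_cases hzV : z ∈ V
  · have h1 : z ∈ K1 := Or.inl ⟨hzS, hzV⟩
    have h2 : z ∉ K2 := by
      rintro (h | h)
      · exact h.2 hzV
      · have h3 : z.1 = b := h.1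
        have h4 : z = (b, z.2) := Prod.ext h3 rfl
        exact hRS z.2 hzR.2 (by rw [← h4]; exact h1)
    have h4 := infDist_zero_of_mem h1
    have h5 := (hK2c.notMem_iff_infDist_pos hK2n).1 h2
    linarith
  · have h1 : z ∈ K2 := Or.inl ⟨hzS, hzV⟩
    have h2 : z ∉ K1 := by
      rintro (h | h)
      · exact hzV h.2
      · have h3 : z.1 = a := h.1
        have h4 : z = (a, z.2) := Prod.ext h3 rfl
        exact hLS z.2 hzR.2 (by rw [← h4]; exact h1)
    have h4 := infDist_zero_of_mem h1
    have h5 := (hK1c.notMem_iff_infDist_pos hK1n).1 h2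
    linarith

end Pool.Agent.Helper79K9.TF
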