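import Pool.Agent.Helper79K9.TF.Defs

/-!
[REG] regularity (helper94)
-/

set_option autoImplicit false

namespace Pool.Agent.Helper79K9.TF

open Set Filter Topology

theorem reg : S_REG := by
  intro G P Q N D F A B T hT hD hG hP hN
  set g := G A B
  set p := P A B
  set q := Q A B
  set n := N A B
  set I : Set ℝ := Ico 0 T with hI
  have hu : UniqueDiffOn ℝ I := uniqueDiffOn_Ico 0 T
  have hmem : ∀ t ∈ I, ∃ X, t < X ∧ Sol A B X g p q n ∧ Icc 0 X ∈ 𝓝[I] t := by
    intro t ht
    have h1 : (t + T) / 2 < T := by linarith [ht.2]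
    have h2 : t < (t + T) / 2 := by linarith [ht.2]
    refine ⟨(t + T) / 2, h2, F.sol A B _ ((hD _).2 ⟨by linarith [ht.1], h1⟩), ?_⟩
    rw [mem_nhdsWithin]
    refine ⟨Iio ((t + T) / 2), isOpen_Iio, h2, fun y hy => ⟨hy.2.1, ?_⟩⟩
    exact (show y < (t + T) / 2 from hy.1).le
  have hpos : ∀ t ∈ I, 0 < g t := by
    intro t ht
    obtain ⟨X, h1, S, -⟩ := hmem t ht
    exact S.pos t ⟨ht.1, h1.le⟩
  have hg : ∀ t ∈ I, HasDerivWithinAt g (p t) I t := by
    intro t ht
    obtain ⟨X, h1, S, h2⟩ := hmem t ht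
    exact (S.dg t ⟨ht.1, h1.le⟩).mono_of_mem_nhdsWithin h2
  have hp : ∀ t ∈ I, HasDerivWithinAt p (q t) I t := by
    intro t ht
    obtain ⟨X, h1, S, h2⟩ := hmem t ht
    exact (S.dp t ⟨ht.1, h1.le⟩).mono_of_mem_nhdsWithin h2
  have hq : ∀ t ∈ I, HasDerivWithinAt q (n t / g t) I t := by
    intro t ht
    obtain ⟨X, h1, S, h2⟩ := hmem t ht
    exact (S.dq t ⟨ht.1, h1.le⟩).mono_of_mem_nhdsWithin h2
  have hn : ∀ t ∈ I, HasDerivWithinAt n (g t - 1 - t / 2 * p t) I t := by
    intro t ht
    obtain ⟨X, h1, S, h2⟩ := hmem t ht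
    exact (S.dn t ⟨ht.1, h1.le⟩).mono_of_mem_nhdsWithin h2
  have hng : ∀ t ∈ I, HasDerivWithinAt (fun t => n t / g t)
      (((g t - 1 - t / 2 * p t) * g t - n t * p t) / g t ^ 2) I t := fun t ht =>
    (hn t ht).div (hg t ht) (hpos t ht).ne'
  have e0 : EqOn (iteratedDerivWithin 0 g I) g I := fun t _ => by rw [iteratedDerivWithin_zero]
  have step : ∀ (k : ℕ) (y z : ℝ → ℝ), EqOn (iteratedDerivWithin k g I) y I →
      (∀ t ∈ I, HasDerivWithinAt y (z t) I t) → EqOn (iteratedDerivWithin (k + 1) g I) z I := by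
    intro k y z h1 h2 t ht
    rw [iteratedDerivWithin_succ, derivWithin_congr h1 (h1 ht)]
    exact (h2 t ht).derivWithin (hu t ht)
  have e1 := step 0 g p e0 hg
  have e2 := step 1 p q e1 hp
  have e3 := step 2 q (fun t => n t / g t) e2 hq
  have e4 := step 3 (fun t => n t / g t) _ e3 hng
  have c0 : ContinuousOn g I := fun t ht => (hg t ht).continuousWithinAt
  have c1 : ContinuousOn p I := fun t ht => (hp t ht).continuousWithinAt
  have c2 : ContinuousOn q I := fun t ht => (hq t ht).continuousWithinAt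
  have cn : ContinuousOn n I := fun t ht => (hn t ht).continuousWithinAt
  have c3 : ContinuousOn (fun t => n t / g t) I := fun t ht => (hng t ht).continuousWithinAt
  have c4 : ContinuousOn (fun t => ((g t - 1 - t / 2 * p t) * g t - n t * p t) / g t ^ 2) I := by
    refine ContinuousOn.div ?_ (c0.pow 2) fun t ht => pow_ne_zero 2 (hpos t ht).ne'
    exact (((c0.sub continuousOn_const).sub ((continuousOn_id.div_const 2).mul c1)).mul c0).sub
      (cn.mul c1)
  have hd : EqOn (derivWithin g I) p I := fun t ht => (hg t ht).derivWithin (hu t ht)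
  have h3 : EqOn (fun y => g y * iteratedDerivWithin 3 g I y) n I := by
    intro t ht
    simp only
    rw [e3 ht]
    exact mul_div_cancel₀ _ (hpos t ht).ne'
  have h0 : (0 : ℝ) ∈ I := ⟨le_rfl, hT⟩
  have hev : ∀ᶠ t in 𝓝[<] T, t ∈ I := by
    filter_upwards [Ioo_mem_nhdsLT hT] with t ht
    exact Ioo_subset_Ico_self ht
  obtain ⟨X0, -, S0, -⟩ := hmem 0 h0
  refine ⟨hT, ?_, hpos, fun x hx => ?_, ?_, ?_, hG, ?_, ?_⟩
  · have : ContDiffOn ℝ ((4 : ℕ) : WithTop ℕ∞) g I := by
      rw [contDiffOn_nat_iff_continuousOn_differentiableOn_deriv hu]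
      constructor
      · intro m hm
        have : m = 0 ∨ m = 1 ∨ m = 2 ∨ m = 3 ∨ m = 4 := by omega
        rcases this with rfl | rfl | rfl | rfl | rfl
        · exact c0.congr e0
        · exact c1.congr e1
        · exact c2.congr e2
        · exact c3.congr e3
        · exact c4.congr e4
      · intro m hm
        have : m = 0 ∨ m = 1 ∨ m = 2 ∨ m = 3 := by omega
        rcases this with rfl | rfl | rfl | rfl
        · exact DifferentiableOn.congr (fun t ht => (hg t ht).differentiableWithinAt) e0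
        · exact DifferentiableOn.congr (fun t ht => (hp t ht).differentiableWithinAt) e1
        · exact DifferentiableOn.congr (fun t ht => (hq t ht).differentiableWithinAt) e2
        · exact DifferentiableOn.congr (fun t ht => (hng t ht).differentiableWithinAt) e3
    exact_mod_cast this
  · rw [derivWithin_congr h3 (h3 hx), (hn x hx).derivWithin (hu x hx), hd hx]
    ring
  · rw [hd h0]
    exact S0.p0
  · rw [e3 h0]
    change n 0 / g 0 = 0
    rw [show n 0 = 0 from S0.n0, zero_div]
  · refine hP.congr' ?_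
    filter_upwards [hev] with t ht
    exact (hd ht).symm
  · refine hN.congr' ?_
    filter_upwards [hev] with t ht
    exact (h3 ht).symm

end Pool.Agent.Helper79K9.TF
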