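import Pool.Agent.Helper79K9.TF.Lim

/-!
# Leaf RIGHT (helper30)
-/

set_option autoImplicit false

namespace Pool.Agent.Helper79K9.TF
namespace RightL

open Set Filter Topology CrossL LimL

/-- the estimates at the point where `n' = 19 / 2` -/
theorem est {B X : ℝ} {g p q n : ℝ → ℝ} (h : Sol 20 B X g p q n) (hcr : S_CROSS) (hB : 0 < B)
    (hp : ∀ t ∈ Icc 0 X, p t ≤ 0) (hn : n X < 0) :
    ∃ s p₀ q₀, 0 < s ∧ s ≤ X ∧ (∀ t, 0 < t → t ≤ s → p t < 0) ∧ 0 < p₀ ∧ p s ≤ -p₀ ∧ 0 ≤ q₀ ∧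
      q s ≤ q₀ ∧ 4 * q₀ * g s * p₀ + 12 * 20 * (s + 2 * g s / p₀) * g s < p₀ ^ 3 := by
  have hX : 0 < X := by
    rcases h.X0.eq_or_lt with h1 | h1
    · rw [← h1, h.n0] at hn
      exact absurd hn (lt_irrefl _)
    · exact h1
  obtain ⟨δ, hδ0, hδX, -, hδn⟩ := n_pos_near h (by norm_num) hX
  -- the first zero
  have hcont : ContinuousOn n (Icc δ X) := fun t ht =>
    ((h.dn t ⟨hδ0.le.trans ht.1, ht.2⟩).continuousWithinAt).mono (Icc_subset_Icc hδ0.le le_rfl)
  set Z := {t | t ∈ Icc δ X ∧ n t ≤ 0} with hZ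
  have hZne : Z.Nonempty := ⟨X, ⟨hδX, le_rfl⟩, hn.le⟩
  have hZb : BddBelow Z := ⟨δ, fun t ht => ht.1.1⟩
  have hZc : IsClosed Z := by
    have : Z = Icc δ X ∩ n ⁻¹' (Iic 0) := by
      ext t; rfl
    rw [this]
    exact hcont.preimage_isClosed_of_isClosed isClosed_Icc isClosed_Iic
  obtain ⟨z, hz⟩ : ∃ z, IsLeast Z z := ⟨_, hZc.isLeast_csInf hZne hZb⟩
  have hzX : z ≤ X := hz.1.1.2
  have hzδ : δ < z := by
    rcases (hz.1.1.1).eq_or_lt with h1 | h1
    · have h2 := hz.1.2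
      rw [← h1] at h2
      exact absurd (hδn δ hδ0 le_rfl) (not_lt.2 h2)
    · exact h1
  have hz0 : 0 < z := hδ0.trans hzδ
  have hpos : ∀ t, 0 < t → t < z → 0 < n t := by
    intro t h1 h2
    rcases le_total t δ with h3 | h3
    · exact hδn t h1 h3
    · by_contra h4
      exact absurd (hz.2 ⟨⟨h3, h2.le.trans hzX⟩, not_lt.1 h4⟩) (not_le.2 h2)
  have hnz : n z = 0 := by
    refine le_antisymm hz.1.2 ?_
    have h1 : Tendsto n (𝓝[Ico δ z] z) (𝓝 (n z)) :=
      (hcont z ⟨hzδ.le, hzX⟩).mono (Ico_subset_Icc_self.trans (Icc_subset_Icc le_rfl hzX))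
    have h2 : (𝓝[Ico δ z] z).NeBot := by
      have : 𝓝[Ico δ z] z = 𝓝[<] z := nhdsWithin_Ico_eq_nhdsLT hzδ
      rw [this]
      infer_instance
    refine ge_of_tendsto h1 ?_
    filter_upwards [self_mem_nhdsWithin] with t ht
    exact (hpos t (hδ0.trans_le ht.1) ht.2).le
  have hz' : Sol 20 B z g p q n := CrossL.Sol.restrict h hz0.le hzX
  have hpz : ∀ t ∈ Icc 0 z, p t ≤ 0 := fun t ht => hp t ⟨ht.1, ht.2.trans hzX⟩
  have hnz' : ∀ t ∈ Icc 0 z, 0 ≤ n t := by
    intro t ht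
    rcases ht.1.eq_or_lt with h1 | h1
    · rw [← h1, h.n0]
    · rcases ht.2.eq_or_lt with h2 | h2
      · rw [h2, hnz]
      · exact (hpos t h1 h2).le
  have hz4 := hcr 20 B z g p q n hz' (by norm_num) hpz hnz'
  have hz95 : z < 19 / 2 := by
    by_contra h1
    have h1 := not_lt.1 h1
    have h2 : (19 / 2 : ℝ) ^ 4 ≤ z ^ 4 := pow_le_pow_left₀ (by norm_num) h1 4
    norm_num at h2 hz4
    linarith
  have hz1 : z ∈ Icc 0 z := ⟨hz0.le, le_rfl⟩
  -- the slope at `z`
  have hmz : g z - 1 - z / 2 * p z ≤ 0 := by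
    by_contra h1
    have h1 := not_le.1 h1
    obtain ⟨c, hc1, hc2, hc3⟩ := mvt hz'.dn le_rfl hz0 le_rfl
    have h2 := m_anti hz' hnz' hc1.le hc2.le le_rfl
    rw [hnz, h.n0, sub_zero, sub_zero] at hc3
    have h3 : 0 < (g c - 1 - c / 2 * p c) * z := mul_pos (by linarith) hz0
    linarith
  -- the point `s`
  have hmc : ContinuousOn (fun t => g t - 1 - t / 2 * p t) (Icc 0 z) := fun t ht =>
    (dm hz' t ht).continuousWithinAt
  obtain ⟨s, hs, hsm⟩ : ∃ s ∈ Icc 0 z, g s - 1 - s / 2 * p s = 19 / 2 := by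
    have h1 := intermediate_value_Icc' hz0.le hmc
    have h2 : (19 / 2 : ℝ) ∈ Icc ((fun t => g t - 1 - t / 2 * p t) z)
        ((fun t => g t - 1 - t / 2 * p t) 0) := by
      refine ⟨by simpa using hmz.trans (by norm_num), ?_⟩
      have := m0 h
      simp only
      rw [this]
      norm_num
    obtain ⟨s, hs, hs1⟩ := h1 h2
    exact ⟨s, hs, hs1⟩
  have hs0 : 0 < s := by
    rcases hs.1.eq_or_lt with h1 | h1
    · have := m0 h
      rw [← h1, this] at hsm
      norm_num at hsm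
    · exact h1
  have hsz : s < z := by
    rcases hs.2.eq_or_lt with h1 | h1
    · rw [h1] at hsm
      linarith
    · exact h1
  have hsX : s ≤ X := hsz.le.trans hzX
  have hmge : ∀ t ∈ Icc 0 z, -1 ≤ g t - 1 - t / 2 * p t := by
    intro t ht
    have h10 := hz'.pos t ht
    have h11 := hpz t ht
    have h12 : 0 ≤ t / 2 * -p t := mul_nonneg (by linarith [ht.1]) (by linarith)
    linarith
  have hns1 : 19 / 2 * s ≤ n s := by
    obtain ⟨c, hc1, hc2, hc3⟩ := mvt hz'.dn le_rfl hs0 hs.2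
    have h2 := m_anti hz' hnz' hc1.le hc2.le hs.2
    rw [h.n0, sub_zero, sub_zero] at hc3
    rw [hc3]
    exact mul_le_mul_of_nonneg_right (by linarith) hs0.le
  have hns2 : n s ≤ z - s := by
    obtain ⟨c, hc1, hc2, hc3⟩ := mvt hz'.dn hs0.le hsz le_rfl
    have h2 := hmge c ⟨hs0.le.trans hc1.le, hc2.le⟩
    rw [hnz] at hc3
    nlinarith
  have hs1 : s < 1 := by linarith
  -- the bound for `γ`
  have hrs : (p s - s * q s) / 2 ≤ -(19 / (2 * s)) := by
    obtain ⟨c, hc1, hc2, hc3⟩ := mvt (dm hz') le_rfl hs0 hs.2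
    have h2 := r_anti hz' hnz' hc1.le hc2.le hs.2
    have h3 := m0 h
    rw [hsm, h3, sub_zero] at hc3
    have h4 : (p c - c * q c) / 2 = -(19 / (2 * s)) := by
      field_simp
      linarith
    linarith
  set γ := g s with hγ
  have hγ0 : 0 < γ := hz'.pos s hs
  have hnt : ∀ t ∈ Icc 0 z, n t ≤ 19 * t := by
    intro t ht
    rcases ht.1.eq_or_lt with h1 | h1
    · rw [← h1, h.n0]; norm_num
    obtain ⟨c, hc1, hc2, hc3⟩ := mvt hz'.dn le_rfl h1 ht.2
    have h2 := m_le hz' hnz' (t := c) ⟨hc1.le, hc2.le.trans ht.2⟩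
    rw [h.n0, sub_zero, sub_zero] at hc3
    rw [hc3]
    exact mul_le_mul_of_nonneg_right (by linarith) h1.le
  have hrs2 : -(19 * s ^ 3 / (6 * γ)) ≤ (p s - s * q s) / 2 := by
    have hd : ∀ t ∈ Icc 0 z, HasDerivWithinAt
        (fun t => (p t - t * q t) / 2 + 19 / (2 * γ) * (t ^ 3 / 3))
        (-(t * n t / (2 * g t)) + 19 / (2 * γ) * t ^ 2) (Icc 0 z) t := by
      intro t ht
      have h1 := (dr hz' t ht).add ((((hasDerivWithinAt_id t (Icc 0 z)).pow 3).div_const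
        3).const_mul (19 / (2 * γ)))
      refine h1.congr_deriv ?_
      simp only [id]
      push_cast
      ring
    have h1 := mono hd le_rfl hs0.le hs.2 fun t ht0 ht1 => by
      have h3 : t ∈ Icc 0 z := ⟨ht0.le, ht1.le.trans hs.2⟩
      have h5 : γ ≤ g t := g_anti hz' hpz ht0.le ht1.le hs.2
      have h6 := hnt t h3
      have h7 : t * n t / (2 * g t) ≤ 19 / (2 * γ) * t ^ 2 := by
        calc t * n t / (2 * g t) ≤ t * (19 * t) / (2 * g t) :=
              div_le_div_of_nonneg_right (mul_le_mul_of_nonneg_left h6 ht0.le)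
                (by linarith [hz'.pos t h3])
          _ ≤ t * (19 * t) / (2 * γ) :=
              div_le_div_of_nonneg_left (by positivity) (by positivity) (by linarith)
          _ = 19 / (2 * γ) * t ^ 2 := by ring
      linarith
    simp only [h.p0] at h1
    have h2 : 19 / (2 * γ) * (s ^ 3 / 3) = 19 * s ^ 3 / (6 * γ) := by
      field_simp
      ring
    rw [h2] at h1
    norm_num at h1
    linarith
  have hγs : γ ≤ s ^ 4 / 3 := by
    have h1 : 19 / (2 * s) ≤ 19 * s ^ 3 / (6 * γ) := by linarith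
    rw [div_le_div_iff₀ (by positivity) (by positivity)] at h1
    nlinarith
  have hs41 : s ^ 4 ≤ 1 := pow_le_one₀ hs0.le hs1.le
  -- the bound for `q`
  have hgq : γ * q s ≤ 19 / 2 * s ^ 2 := by
    have hd : ∀ t ∈ Icc 0 z, HasDerivWithinAt (fun t => γ * q t - 19 / 2 * t ^ 2)
        (γ * (n t / g t) - 19 * t) (Icc 0 z) t := by
      intro t ht
      have h1 := ((hz'.dq t ht).const_mul γ).sub
        (((hasDerivWithinAt_id t (Icc 0 z)).pow 2).const_mul (19 / 2))
      refine h1.congr_deriv ?_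
      simp only [id]
      push_cast
      ring
    have h1 := anti hd le_rfl hs0.le hs.2 fun t ht0 ht1 => by
      have h3 : t ∈ Icc 0 z := ⟨ht0.le, ht1.le.trans hs.2⟩
      have h5 : γ ≤ g t := g_anti hz' hpz ht0.le ht1.le hs.2
      have h6 := hnt t h3
      have h7 := hz'.pos t h3
      have h8 : γ * (n t / g t) ≤ n t := by
        rw [mul_div_assoc', div_le_iff₀ h7, mul_comm]
        exact mul_le_mul_of_nonneg_left h5 (hnz' t h3)
      linarith
    simp only [h.q0] at h1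
    have h2 : 0 ≤ γ * B := by positivity
    norm_num at h1
    linarith
  refine ⟨s, 20 / s, max (q s) 0, hs0, hsX, ?_, by positivity, ?_, le_max_right _ _,
    le_max_left _ _, ?_⟩
  · intro t ht0 ht1
    exact p_neg hz' hB hpz hnz' ht0 (ht1.trans_lt hsz)
  · have h1 : s * p s = 2 * γ - 21 := by linarith
    have h2 : 2 * γ ≤ 1 := by linarith
    rw [← neg_div, le_div_iff₀ hs0]
    nlinarith
  · have hq0 : max (q s) 0 * γ ≤ 19 / 2 * s ^ 2 := by
      rcases le_total (q s) 0 with h1 | h1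
      · rw [max_eq_right h1, zero_mul]
        positivity
      · rw [max_eq_left h1]
        linarith
    have h1 : 4 * max (q s) 0 * γ * (20 / s) ≤ 760 * s := by
      calc 4 * max (q s) 0 * γ * (20 / s) = (max (q s) 0 * γ) * (80 / s) := by ring
        _ ≤ (19 / 2 * s ^ 2) * (80 / s) := mul_le_mul_of_nonneg_right hq0 (by positivity)
        _ = 760 * s := by field_simp; ring
    have h2 : 2 * γ / (20 / s) = γ * s / 10 := by
      field_simp
      ring
    have h3 : γ ≤ 1 / 3 := by linarith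
    have h4 : 12 * 20 * (s + 2 * γ / (20 / s)) * γ ≤ 100 := by
      rw [h2]
      have h5 : γ * s ≤ 1 / 3 := by nlinarith
      have h6 : s + γ * s / 10 ≤ 31 / 30 := by linarith
      have h7 : 0 ≤ s + γ * s / 10 := by positivity
      nlinarith
    have h5 : (8000 : ℝ) ≤ (20 / s) ^ 3 := by
      have h6 : (20 : ℝ) ≤ 20 / s := by
        rw [le_div_iff₀ hs0]
        linarith
      calc (8000 : ℝ) = 20 ^ 3 := by norm_num
        _ ≤ (20 / s) ^ 3 := pow_le_pow_left₀ (by norm_num) h6 3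
    linarith

/-- outside `Tset` the curvature is negative -/
theorem B_pos {G P Q N : ℝ → ℝ → ℝ → ℝ} {D : ℝ → ℝ → ℝ → Prop} (hF : Flow G P Q N D) {A B : ℝ}
    (hA : 1 < A) (hT : (A, B) ∉ Tset P D) : 0 < B := by
  by_contra hcon
  have hB := not_lt.1 hcon
  obtain ⟨X, hX0, hX⟩ := hF.ext A B 0 (hF.dom0 A B (by linarith))
  have h := hF.sol A B X hX
  obtain ⟨δ, hδ0, hδX, -, hδn⟩ := n_pos_near h hA hX0
  have hq : ∀ t, 0 < t → t ≤ δ → 0 < Q A B t := by
    intro t h1 h2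
    obtain ⟨c, hc1, hc2, hc3⟩ := mvt h.dq le_rfl h1 (h2.trans hδX)
    rw [h.q0, sub_zero] at hc3
    have h3 : 0 < N A B c / G A B c * t :=
      mul_pos (div_pos (hδn c hc1 (hc2.le.trans h2)) (h.pos c ⟨hc1.le, hc2.le.trans
        (h2.trans hδX)⟩)) h1
    linarith
  obtain ⟨c, hc1, hc2, hc3⟩ := mvt h.dp le_rfl hδ0 hδX
  rw [h.p0, sub_zero, sub_zero] at hc3
  have h4 : 0 < P A B δ := by
    rw [hc3]
    exact mul_pos (hq c hc1 hc2.le) hδ0
  exact hT ⟨δ, hF.dle A B X δ hX hδ0.le hδX, h4⟩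

end RightL

open Set Filter Topology CrossL LimL RightL in
theorem right (hnott : S_NOTT) (hcr : S_CROSS) : S_RIGHT := by
  intro G P Q N D hF B hcl hT hN
  have hB : 0 < B := B_pos hF (by norm_num) hT
  obtain ⟨X, hX, hXn⟩ := hN
  obtain ⟨s, p₀, q₀, hs0, hsX, hps, hp0, hp1, hq0, hq1, hcrit⟩ :=
    est (hF.sol 20 B X hX) hcr hB (Ppi hF hT hX) hXn
  exact hnott G P Q N D hF 20 B s p₀ q₀ (by norm_num) hB hs0 (hF.dle 20 B X s hX hs0.le hsX)
    hps hp0 hp1 hq0 hq1 hcrit hcl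

end Pool.Agent.Helper79K9.TF
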