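import Pool.Agent.Helper79K9.TF.Crit

/-!
# Zero contact angle profiles: large curvature at the origin
-/

set_option autoImplicit false

namespace Pool.Agent.Helper79K9.TF

open Set Filter Topology

open CritL in
theorem top : S_TOP := by
  intro A B X g p q n h hA hB hAB
  have hA0 : 0 < A := by linarith
  set p₀ : ℝ := Real.sqrt (A * B / 8) with hp₀def
  have hp₀ : 0 < p₀ := Real.sqrt_pos.2 (by positivity)
  have hp₀2 : p₀ ^ 2 = A * B / 8 := Real.sq_sqrt (by positivity)
  set τ : ℝ := A / (2 * p₀) with hτdef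
  have hτ : 0 < τ := by positivity
  have hτ2 : τ ^ 2 = 2 * A / B := by
    rw [hτdef, div_pow, mul_pow, hp₀2]
    field_simp
    norm_num
  have hτB : 3 / 2 * τ ^ 2 < B / 2 := by
    rw [hτ2]
    have : 2 * A / B < B / 300 := by
      rw [div_lt_div_iff₀ hB (by norm_num)]
      nlinarith
    linarith
  -- the part of the solution with `g ≥ A / 2`
  have part : ∀ T, 0 ≤ T → T ≤ X → T ≤ τ → (∀ t ∈ Icc 0 T, A / 2 ≤ g t) →
      ∀ t ∈ Icc 0 T, q t ≤ -(B / 2) := by
    intro T hT0 hTX hTτ hg
    have hsub : Icc 0 T ⊆ Icc 0 X := Icc_subset_Icc_right hTX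
    have hcont : ContinuousOn q (Icc 0 T) := fun t ht =>
      ((h.dq t (hsub ht)).mono hsub).continuousWithinAt
    have hb := boot (f := q) (κ := -(B / 2)) hcont (by rw [h.q0]; linarith) (fun t ht hqt => by
      have hsub' : Icc 0 t ⊆ Icc 0 X := (Icc_subset_Icc_right ht.2).trans hsub
      have hp : ∀ x ∈ Icc 0 t, p x ≤ 0 := by
        intro x hx
        have hsx : Icc 0 x ⊆ Icc 0 X := (Icc_subset_Icc_right hx.2).trans hsub'
        have h1 := anti (f := p) (f' := q) hx.1 (fun y hy => (h.dp y (hsx hy)).mono hsx)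
          (fun y hy => by linarith [hqt y ⟨hy.1, hy.2.trans hx.2⟩])
        rw [h.p0] at h1
        exact h1
      have h1 := incr_le (f := fun x => q x - 3 / 2 * x ^ 2)
        (f' := fun x => n x / g x - 3 / 2 * (2 * x)) (c := 0) ht.1
        (fun x hx => by
          have d1 := (h.dq x (hsub' hx)).mono hsub'
          have d2 : HasDerivWithinAt (fun x : ℝ => 3 / 2 * x ^ 2) (3 / 2 * (2 * x))
              (Icc 0 t) x := by
            have := ((hasDerivAt_pow 2 x).const_mul (3 / 2 : ℝ)).hasDerivWithinAt (s := Icc 0 t)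
            simpa using this
          exact d1.sub d2)
        (fun x hx => by
          have hx' : x ∈ Icc 0 T := ⟨hx.1, hx.2.trans ht.2⟩
          have g1 := hg x hx'
          have g2 : 0 < g x := by linarith
          have g3 := n_le h (hsub' hx) (fun y hy => hp y ⟨hy.1, hy.2.trans hx.2⟩)
          have g4 : n x / g x ≤ 3 * x := by
            rw [div_le_iff₀ g2]
            have := mul_le_mul_of_nonneg_left g1 (show 0 ≤ 3 * x by linarith [hx.1])
            linarith
          linarith)
      simp only [h.q0] at h1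
      have h2 : t ^ 2 ≤ τ ^ 2 := pow_le_pow_left₀ ht.1 (ht.2.trans hTτ) 2
      nlinarith)
    exact fun t ht => (hb t ht).le
  have pneg : ∀ T, 0 ≤ T → T ≤ X → (∀ t ∈ Icc 0 T, q t ≤ -(B / 2)) →
      ∀ t ∈ Icc 0 T, p t ≤ -(B / 2) * t := by
    intro T hT0 hTX hq t ht
    have hsub : Icc 0 t ⊆ Icc 0 X := Icc_subset_Icc_right (ht.2.trans hTX)
    have h1 := incr_le (f := p) (f' := q) (c := -(B / 2)) ht.1
      (fun y hy => (h.dp y (hsub hy)).mono hsub) (fun y hy => hq y ⟨hy.1, hy.2.trans ht.2⟩)
    rw [h.p0] at h1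
    linarith
  set X' : ℝ := min X τ with hX'
  have hX'0 : 0 ≤ X' := le_min h.X0 hτ.le
  have hcg : ContinuousOn g (Icc 0 X) := fun t ht => (h.dg t ht).continuousWithinAt
  by_cases hcase : ∃ t ∈ Icc 0 X', g t ≤ A / 2
  · -- first time with `g = A / 2`
    obtain ⟨t, ht, hgt⟩ := hcase
    have hsubX : Icc 0 X' ⊆ Icc 0 X := Icc_subset_Icc_right (min_le_left _ _)
    have hcl : IsClosed (Icc 0 X' ∩ g ⁻¹' Iic (A / 2)) :=
      (hcg.mono hsubX).preimage_isClosed_of_isClosed isClosed_Icc isClosed_Iic
    have hcp : IsCompact (Icc 0 X' ∩ g ⁻¹' Iic (A / 2)) :=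
      isCompact_Icc.of_isClosed_subset hcl inter_subset_left
    obtain ⟨m, hm, hmin⟩ := hcp.exists_isLeast ⟨t, ht, hgt⟩
    have hmX : m ≤ X := hm.1.2.trans (min_le_left _ _)
    have hmτ : m ≤ τ := hm.1.2.trans (min_le_right _ _)
    have hlt : ∀ x ∈ Icc 0 m, x < m → A / 2 < g x := by
      intro x hx hxm
      by_contra hx'
      push Not at hx'
      exact absurd (hmin ⟨⟨hx.1, hx.2.trans hm.1.2⟩, hx'⟩) (not_le.2 hxm)
    have hgm : g m = A / 2 := by
      refine le_antisymm hm.2 ?_
      by_contra hcon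
      push Not at hcon
      have hsub : Icc 0 m ⊆ Icc 0 X := Icc_subset_Icc_right hmX
      obtain ⟨x, hx, hfx⟩ := intermediate_value_Icc' hm.1.1 (hcg.mono hsub)
        (show A / 2 ∈ Icc (g m) (g 0) by rw [h.g0]; constructor <;> linarith)
      have hne : x ≠ m := by
        rintro rfl
        exact absurd hfx (ne_of_lt hcon)
      have := hlt x hx (lt_of_le_of_ne hx.2 hne)
      rw [hfx] at this
      exact lt_irrefl _ this
    have hgge : ∀ x ∈ Icc 0 m, A / 2 ≤ g x := by
      intro x hx
      rcases hx.2.lt_or_eq with h1 | h1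
      · exact (hlt x hx h1).le
      · rw [h1, hgm]
    have hq := part m hm.1.1 hmX hmτ hgge
    have hp := pneg m hm.1.1 hmX hq
    have hsub : Icc 0 m ⊆ Icc 0 X := Icc_subset_Icc_right hmX
    have hpm : ∀ x ∈ Icc 0 m, p m ≤ p x := by
      intro x hx
      have hs' : Icc x m ⊆ Icc 0 X := Icc_subset_Icc hx.1 hmX
      exact anti (f := p) (f' := q) hx.2 (fun y hy => (h.dp y (hs' hy)).mono hs')
        (fun y hy => by linarith [hq y ⟨hx.1.trans hy.1, hy.2⟩])
    have h1 := incr_le (f := fun x => - g x) (f' := fun x => - p x) (c := - p m) hm.1.1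
      (fun y hy => ((h.dg y (hsub hy)).mono hsub).neg) (fun y hy => by linarith [hpm y hy])
    simp only [h.g0, hgm, sub_zero] at h1
    have hpm0 : 0 ≤ - p m := by
      have := hp m ⟨hm.1.1, le_rfl⟩
      have := mul_nonneg (show 0 ≤ B / 2 by linarith) hm.1.1
      linarith
    have h2 : A / 2 ≤ - p m * τ := by
      have := mul_le_mul_of_nonneg_left hmτ hpm0
      linarith
    have h3 : p m ≤ -p₀ := by
      have h4 : p₀ * τ = A / 2 := by rw [hτdef]; field_simp
      rw [← h4] at h2
      have := le_of_mul_le_mul_right h2 hτ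
      linarith
    have hcr := crit A B X m (A / 2) p₀ 0 g p q n h hA0 hm.1.1 hmX
      (fun t ht => by
        have := hp t ht
        have := mul_nonneg (show 0 ≤ B / 2 by linarith) ht.1
        linarith) hgm hp₀ h3 le_rfl (by
        have := hq m ⟨hm.1.1, le_rfl⟩
        linarith) (by
        have e1 : 2 * (A / 2) / p₀ = 2 * τ := by rw [hτdef]; field_simp
        rw [e1]
        have h5 : m + 2 * τ ≤ 3 * τ := by linarith
        have h6 : 12 * A * (m + 2 * τ) * (A / 2) ≤ 12 * A * (3 * τ) * (A / 2) := by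
          have := mul_le_mul_of_nonneg_left h5 (show 0 ≤ 12 * A * (A / 2) by positivity)
          linarith
        have h7 : 12 * A * (3 * τ) * (A / 2) = 9 * A ^ 3 / p₀ := by
          rw [hτdef]; field_simp; ring
        have h8 : 9 * A ^ 3 / p₀ < p₀ ^ 3 := by
          rw [div_lt_iff₀ hp₀]
          have e2 : p₀ ^ 3 * p₀ = A ^ 2 * B ^ 2 / 64 := by
            calc p₀ ^ 3 * p₀ = (p₀ ^ 2) ^ 2 := by ring
              _ = A ^ 2 * B ^ 2 / 64 := by rw [hp₀2]; ring
          rw [e2]
          have h9 := mul_lt_mul_of_pos_left hAB (show 0 < A ^ 2 by positivity)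
          have h10 : 0 < A ^ 3 := by positivity
          nlinarith
        linarith)
    have := hcr X ⟨hmX, le_rfl⟩
    linarith
  · push Not at hcase
    have hq := part X' hX'0 (min_le_left _ _) (min_le_right _ _) (fun t ht => (hcase t ht).le)
    have hp := pneg X' hX'0 (min_le_left _ _) hq
    rcases le_total X τ with hXτ | hXτ
    · have hXX : X' = X := min_eq_left hXτ
      rw [hXX] at hp
      have h1 := hp X ⟨h.X0, le_rfl⟩
      have := mul_nonneg (show 0 ≤ B / 2 by linarith) h.X0
      linarith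
    · exfalso
      have hXX : X' = τ := min_eq_right hXτ
      rw [hXX] at hp hcase
      have hsub : Icc 0 τ ⊆ Icc 0 X := Icc_subset_Icc_right hXτ
      have h1 := incr_le (f := fun x => g x + B / 4 * x ^ 2)
        (f' := fun x => p x + B / 4 * (2 * x)) (c := 0) hτ.le
        (fun x hx => by
          have d2 : HasDerivWithinAt (fun x : ℝ => B / 4 * x ^ 2) (B / 4 * (2 * x))
              (Icc 0 τ) x := by
            have := ((hasDerivAt_pow 2 x).const_mul (B / 4 : ℝ)).hasDerivWithinAt (s := Icc 0 τ)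
            simpa using this
          exact ((h.dg x (hsub hx)).mono hsub).add d2)
        (fun x hx => by
          have := hp x hx
          linarith)
      simp only [h.g0] at h1
      rw [hτ2] at h1
      have h2 := hcase τ ⟨hτ.le, le_rfl⟩
      have h3 : B / 4 * (2 * A / B) = A / 2 := by field_simp; norm_num
      rw [h3] at h1
      norm_num at h1
      linarith

end Pool.Agent.Helper79K9.TF
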